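import Pool.Agent.Lib.MP_5684f0_lc.T.Impl

/-! The classes of the codes consist of Borel sets and exhaust them (written by helper93). -/

namespace Pool.Agent.Lib.MP_5684f0_lc.T.Bor

open Filter Topology Set

abbrev It (L : ℕ → T.Lay) (C : Set (Set Cs)) (n : ℕ) : Set (Set Cs) :=
  Nat.rec C (fun n D => T.Cl (L n) D) n

theorem sub_Cl (L : T.Lay) : ∀ C : Set (Set Cs), C ⊆ T.Cl L C := by
  cases L with
  | zero => exact fun _ => Subset.rfl
  | one => exact fun C A h => ⟨fun _ => A, fun _ => h, fun _ => Eventually.of_forall fun _ => Iff.rfl⟩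
  | sum L => exact fun C => subset_iUnion (It L C) 0

theorem Cl_mono (L : T.Lay) : ∀ C D : Set (Set Cs), C ⊆ D → T.Cl L C ⊆ T.Cl L D := by
  induction L with
  | zero => exact fun _ _ h => h
  | one => exact fun C D h A ⟨B, b, b'⟩ => ⟨B, fun s => h (b s), b'⟩
  | sum L ih =>
    refine fun C D h => iUnion_mono fun n => ?_
    induction n with
    | zero => exact h
    | succ n h' => exact ih n _ _ h'

theorem It_mono (L : ℕ → T.Lay) (C : Set (Set Cs)) : Monotone (It L C) :=
  monotone_nat_of_le_succ fun n => sub_Cl (L n) _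

theorem one_code (L : ℕ → T.Lay) (C : Set (Set Cs)) (n : ℕ) : T.Cl (L n) C ⊆ T.Cl (.sum L) C :=
  (Cl_mono _ _ _ (It_mono L C (Nat.zero_le n))).trans (subset_iUnion (It L C) (n + 1))

def Dif (C : Set (Set Cs)) : Prop := ∀ A ∈ C, ∀ B ∈ C, A \ B ∈ C

theorem Cl_dif (L : T.Lay) : ∀ C, Dif C → Dif (T.Cl L C) := by
  induction L with
  | zero => exact fun _ h => h
  | one =>
    rintro C h A ⟨A', a, a'⟩ B ⟨B', b, b'⟩
    refine ⟨fun s => A' s \ B' s, fun s => h _ (a s) _ (b s), fun y => ?_⟩
    filter_upwards [a' y, b' y] with s h1 h2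
    simp only [Set.mem_sdiff, h1, h2]
  | sum L ih =>
    intro C h A hA B hB
    obtain ⟨n, hn⟩ := mem_iUnion.1 hA
    obtain ⟨m, hm⟩ := mem_iUnion.1 hB
    have : ∀ n, Dif (It L C n) := fun n => by
      induction n with
      | zero => exact h
      | succ n h' => exact ih n _ h'
    exact mem_iUnion.2 ⟨max n m, this _ _ (It_mono L C (le_max_left _ _) hn) _
      (It_mono L C (le_max_right _ _) hm)⟩

def K : Set (Set Cs) := {U | IsClopen U}
theorem difK : Dif K := fun _ a _ b => IsClopen.diff a b
theorem compl_mem {L : T.Lay} {A : Set Cs} (h : A ∈ T.Cl L K) : Aᶜ ∈ T.Cl L K := by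
  rw [compl_eq_univ_sdiff]
  exact Cl_dif L K difK _ (sub_Cl L K isClopen_univ) _ h

def suc (L : T.Lay) : T.Lay := .sum fun n => match n with
  | 0 => L
  | 1 => .one
  | _ + 2 => .zero

theorem union_mem {L : T.Lay} {C : ℕ → Set Cs} (hC : ∀ n, C n ∈ T.Cl L K) : (⋃ n, C n) ∈ T.Cl (suc L) K := by
  rw [← compl_compl (⋃ n, C n)]
  refine compl_mem (mem_iUnion.2 ⟨2, ?_⟩)
  let E : ℕ → Set Cs := fun m => Nat.rec univ (fun m D => D \ C m) m
  have hE : ∀ m, E m ∈ T.Cl L K := fun m => by
    induction m with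
    | zero => exact sub_Cl L K isClopen_univ
    | succ m h => exact Cl_dif L K difK _ h _ (hC m)
  have hm : ∀ m y, y ∈ E m ↔ ∀ i < m, y ∉ C i := fun m y => by
    induction m with
    | zero => simp [E]
    | succ m h =>
      show y ∈ E m \ C m ↔ _
      rw [Set.mem_sdiff, h, Nat.forall_lt_succ_right]
  refine ⟨E, hE, fun y => ?_⟩
  simp only [hm, mem_compl_iff, mem_iUnion, not_exists]
  by_cases hy : ∀ i, y ∉ C i
  · exact Eventually.of_forall fun m => ⟨fun _ => hy, fun _ i _ => hy i⟩
  · obtain ⟨i, hi⟩ := not_forall.1 hy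
    filter_upwards [eventually_gt_atTop i] with m hm'
    exact ⟨fun h => absurd (h i hm') hi, fun h => absurd h hy⟩

theorem borel_code {A : Set Cs} (hA : MeasurableSet A) : ∃ L, A ∈ T.Cl L K := by
  induction A, hA using MeasurableSet.induction_on_open with
  | isOpen A hA =>
    obtain ⟨S, hS, rfl⟩ := isTopologicalBasis_isClopen.open_eq_sUnion hA
    obtain ⟨T, hc, hT, he⟩ := TopologicalSpace.isOpen_sUnion_countable S fun s hs => (hS hs).isOpen
    obtain ⟨B, hB⟩ := (hc.insert ∅).exists_eq_range (insert_nonempty _ _)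
    refine ⟨suc .zero, ?_⟩
    rw [← he, ← empty_union (⋃₀ T), ← sUnion_insert, hB, sUnion_range]
    refine union_mem fun n => ?_
    rcases (hB ▸ mem_range_self n : B n ∈ insert ∅ T) with h | h
    · rw [h]; exact isClopen_empty
    · exact hS (hT h)
  | compl A _ h => exact h.imp fun L h => compl_mem h
  | iUnion B _ _ h =>
    choose L hL using h
    exact ⟨suc (.sum L), union_mem fun n => one_code L K n (hL n)⟩

/-- every Borel g lies below all Borel order preserving f that are high enough -/
theorem all_borel (H : Impl.Rk) (g : Cs → Cs) (hg : Measurable g) : ∃ L, ∀ (f : Cs → Cs) (c : Cs), Measurable f →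
    (∀ x y, leT c x → leT x y → leM (f x) (f y)) →
    (∀ x z w, leT c x → leT z x → T.Dec L z w → leT (G.P 2 w) (f x)) → leCone g f := by
  choose L hL using fun a : ℕ => borel_code (A := {x | g x a = true})
    (((measurable_pi_apply a).comp hg) (measurableSet_singleton true))
  exact ⟨.sum L, fun f c hf hop hh => H _ f g c hf hop hh
    fun a => BooleanSubalgebra.subset_closure ⟨fun _ => _, fun _ => one_code L K a (hL a), (iUnion_const _).symm⟩⟩

/-- the classes contain Borel sets only -/
theorem Cl_borel (L : T.Lay) : ∀ C : Set (Set Cs), (∀ A ∈ C, MeasurableSet A) → ∀ A ∈ T.Cl L C, MeasurableSet A := by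
  induction L with
  | zero => exact fun _ h => h
  | one =>
    rintro C h A ⟨B, b, b'⟩
    have : A = ⋃ n, ⋂ m, ⋂ (_ : m ≥ n), B m := by
      ext y
      simp only [mem_iUnion, mem_iInter, ← eventually_atTop]
      exact ((eventually_congr (b' y)).trans eventually_const).symm
    rw [this]
    exact .iUnion fun n => .iInter fun m => .iInter fun _ => h _ (b m)
  | sum L ih =>
    intro C h A hA
    obtain ⟨n, hn⟩ := mem_iUnion.1 hA
    have : ∀ n, ∀ A ∈ It L C n, MeasurableSet A := fun n => by
      induction n with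
      | zero => exact h
      | succ n h' => exact ih n _ h'
    exact this n A hn

end Pool.Agent.Lib.MP_5684f0_lc.T.Bor
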