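import Pool.Agent.Lib.MP_5684f0_lc.T.Main

/-! The theorem of `T/Main` with the Baire property in place of Borel measurability. The proof is a
copy of the proof there; only the use of measurability changes. -/

namespace Pool.Agent.Lib.MP_5684f0_lc.T.Bp

open Filter Topology Set PiNat G

theorem bp_bit {X : Type} [TopologicalSpace X] {u : X → Bool}
    (h : BaireMeasurableSet {x | u x = true}) (b : Bool) : BaireMeasurableSet {x | u x = b} := by
  cases b
  · convert h.compl using 1
    ext x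
    simp
  · exact h

theorem bp_eq {X : Type} [TopologicalSpace X] {u v : X → Bool}
    (h : BaireMeasurableSet {x | u x = true}) (h' : BaireMeasurableSet {x | v x = true}) :
    BaireMeasurableSet {x | u x = v x} := by
  convert (h.inter h').union (h.compl.inter h'.compl) using 1
  ext x
  simp only [mem_ofPred_eq, mem_union, mem_inter_iff, mem_compl_iff]
  cases u x <;> cases v x <;> simp

theorem bp_two {f : Cs → Cs} (hf : ∀ φ : (ℕ → ℕ) → Cs, Continuous φ → ∀ a,
    BaireMeasurableSet {y | f (φ y) a = true}) {φ : (ℕ → ℕ → ℕ) → Cs} (hφ : Continuous φ) (a : ℕ) :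
    BaireMeasurableSet {w | f (φ w) a = true} := by
  let H : (ℕ → ℕ) ≃ₜ (ℕ → ℕ → ℕ) :=
    (Homeomorph.piCongrLeft (Y := fun _ : ℕ => ℕ) Nat.pairEquiv).symm.trans Homeomorph.piCurry
  simpa using (hf _ (hφ.comp H.continuous) a).preimage H.symm.continuous H.symm.isOpenMap

theorem high0 {L : Lay} {f g : Cs → Cs} (hf : ∀ φ : (ℕ → ℕ) → Cs, Continuous φ → ∀ a,
      BaireMeasurableSet {y | f (φ y) a = true}) (hop : OP f)
    (hh : ∀ z w, Dec L z w → leT (P 2 w) (f z)) (hg : ∀ m, FP (Ms L 0 C0) {y | g y m = true}) :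
    leCone g f := by
  let Y := Y ℕ
  let pr : Y → Cs := fun y => Sc L 0 (fun a => cv y (a + 3)) (Hl y 3)
  have hT : Tower L 0 (R 3) (lev pr ∅) := tower L 0 (add_left_injective 3) (empty_subset _)
    (fun a => ⟨Nat.le_add_left 3 a, notMem_empty _⟩) (ind_Hl 3)
  have continuous_pr : Continuous pr :=
    continuous_pi fun q => continuous_iff_continuousAt.2 fun y => continuousAt_const.congr
      (Eventually.mono ((cyl_open y (q + 1)).mem_nhds (self_mem_cylinder y _)) fun _ h =>
        ((lev_iff.1 (hT.lip (rl 3 h))).1 q (Nat.lt_succ_self q)).symm)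
  obtain ⟨e, he⟩ := exists_enum
  choose V hV hV' using fun (a : ℕ) (b : Bool) =>
    (bp_bit (hf _ continuous_pr a) b).residualEq_isOpen
  have hG : ∀ᶠ y in residual Y, ∀ a b, f (pr y) a = b ↔ y ∈ V a b :=
    eventually_countable_forall.2 fun a => eventually_countable_forall.2 fun b =>
      (hV' a b).mem_iff
  let cd : (ℕ → Y) → Cs := fun w => code fun m => pr (w m)
  have hcd : Continuous cd := continuous_code.comp
    (continuous_pi fun m => continuous_pr.comp (continuous_apply m))
  have hsh : ∀ i, Continuous fun (w : ℕ → Y) m => w (m + i) := fun i =>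
    continuous_pi fun m => continuous_apply _
  let Z0 : ℕ → Set (ℕ → Y) := fun d =>
    (⋂ n, {w | f (cd fun m => w (m + 1)) n = f (cd w) (e d.unpair.1 n)}) ∩
      ⋂ n, {w | f (pr (w 0)) n = f (cd w) (e d.unpair.2 n)}
  choose Z hZ hZ' using fun d => BaireMeasurableSet.residualEq_isOpen (s := Z0 d)
    ((BaireMeasurableSet.iInter fun n => bp_eq (bp_two hf (hcd.comp (hsh 1)) n)
      (bp_two hf hcd _)).inter (.iInter fun n => bp_eq
        (bp_two hf (continuous_pr.comp (continuous_apply 0)) n) (bp_two hf hcd _)))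
  have hZ1 : ∀ᶠ w in residual (ℕ → Y), ∀ d, w ∈ Z0 d ↔ w ∈ Z d :=
    eventually_countable_forall.2 fun d => (hZ' d).mem_iff
  have hd : Dense (⋃ d, Z d) := dense_of_mem_residual (hZ1.mono fun w hw => by
    obtain ⟨ρ, hρ, h1⟩ := hop _ _ (leT_code_shift fun m => pr (w m))
    obtain ⟨σ, hσ, h2⟩ := hop _ _ (leT_code_zero fun m => pr (w m))
    obtain ⟨i, rfl⟩ := he ρ hρ
    obtain ⟨j, rfl⟩ := he σ hσ
    exact mem_iUnion.2 ⟨Nat.pair i j, (hw _).1 ⟨mem_iInter.2 fun n => by
      simpa only [Nat.unpair_pair, mem_ofPred_eq] using h1 n, mem_iInter.2 fun n => by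
      simpa only [Nat.unpair_pair, mem_ofPred_eq] using h2 n⟩⟩)
  have hso : ∀ i, IsOpenMap fun (w : ℕ → Y) m => w (m + i) := fun i => .of_sections fun w =>
    ⟨fun v m => if m < i then w m else v (m - i), (continuous_pi fun m => by
      split_ifs; exacts [continuous_const, continuous_apply _]).continuousAt,
      funext fun m => by
        dsimp only; split_ifs with h; exacts [rfl, by rw [Nat.sub_add_cancel (not_lt.1 h)]],
      fun v => funext fun m => by simp⟩
  obtain ⟨T, t1, t2, t3, t4⟩ := mem_residual_iff.1 ((eventually_countable_forall.2 fun i =>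
    (tendsto_residual_of_isOpenMap (hsh i) (hso i)).eventually hZ1).and
    (eventually_countable_forall.2 fun m => (tendsto_residual_of_isOpenMap
      (continuous_apply (A := fun _ : ℕ => Y) m) (isOpenMap_eval m)).eventually hG))
  obtain ⟨E, hE⟩ := (t3.insert univ).exists_eq_range (insert_nonempty _ _)
  have hE' : ∀ j, IsOpen (E j) ∧ Dense (E j) := fun j => by
    rcases (hE ▸ mem_range_self j : E j ∈ insert univ T) with h | h
    exacts [h ▸ ⟨isOpen_univ, dense_univ⟩, ⟨t1 _ h, t2 _ h⟩]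
  obtain ⟨K, U, u1, u2, u3, u4⟩ := exists_index (Good.ms L 0 good_C0).1 hg
  obtain ⟨O, a, d, o1, o2, o3⟩ := base (exists_free (h := fun y => f (pr y)) hV
    (hG.mono fun y hy a => (hy a _).1 rfl) fun y => hh _ _ (Sc_dec L _ _ _)) hZ hd (fun j => (hE' j).1)
    (fun j => (hE' j).2) K
  obtain ⟨σ, hσ⟩ := top (rl 3) o1 o3
  obtain ⟨w, w1, w2⟩ := run (fun w hw b => by
    obtain ⟨l, h1, h2⟩ := ((eventually_ge_atTop b).and ((Finset.eventually_all (Finset.range b)).2
      fun m _ => ev_cyl ((o1 m).1.mem_nhds (hw m)))).exists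
    exact ⟨l, h1, fun m hm => h2 m (Finset.mem_range.2 hm)⟩) (rl 3) hT σ u1
    fun y => hσ _ (g y) (u2 y) (u3 y) (u4 y)
  have hw := fun y => t4 (a := w y) fun s hs => by
    obtain ⟨j, rfl⟩ : s ∈ range E := hE ▸ mem_insert_of_mem _ hs
    exact (w2 y).2 j
  have hz := fun y i => ((hw y).1 i _).2 (o2 i (w y) fun m => ((w2 y).1 m).1)
  let κ : ℕ → ℕ → ℕ := fun i => Nat.rec id (fun i k n => k (e (d i).unpair.1 n)) i
  obtain ⟨c, hc⟩ := exists_leT_of_lc (Y := univ) (θ := fun y => cd (w y))
    fun n y hy => (w1 _ _ y hy).mono fun _ h => congrArg Prod.fst h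
  obtain ⟨c', hc'⟩ := exists_rec fun m => κ m (e (d m).unpair.2 (a m))
  obtain ⟨c2, h1, h2⟩ := exists_upper2 c c'
  refine ⟨c2, fun y hy => ?_⟩
  obtain ⟨ρ, hρ, h⟩ := hop _ _ (hc y trivial (h1.trans hy))
  refine ⟨_, tr_iff.2 ((Rec.of_computable hρ).comp (hc'.mono h2)), fun m => ?_⟩
  have hκ : ∀ i n, f (cd fun m => w y (m + i)) n = f (cd (w y)) (κ i n) := by
    intro i
    induction i with
    | zero => exact fun n => rfl
    | succ i ih =>
      intro n
      have h1 := mem_iInter.1 (hz y i).1 n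
      simp only [mem_ofPred_eq, Nat.add_right_comm _ 1 i] at h1
      exact h1.trans (ih _)
  have h3 := mem_iInter.1 (hz y m).2 (a m)
  simp only [mem_ofPred_eq, Nat.zero_add] at h3
  rw [← ((hw y).2 m _ _).2 ((w2 y).1 m).2, h3, hκ, h]

theorem high {L : Lay} {f g : Cs → Cs} {c : Cs} (hf : ∀ φ : (ℕ → ℕ) → Cs, Continuous φ → ∀ a,
      BaireMeasurableSet {y | f (φ y) a = true})
    (hop : ∀ x y, leT c x → leT x y → leM (f x) (f y))
    (hh : ∀ x z w, leT c x → leT z x → Dec L z w → leT (P 2 w) (f x))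
    (hg : ∀ a, {x | g x a = true} ∈ BooleanSubalgebra.closure {A | Sg L A}) :
    leCone g f :=
  leCone_of (c := c) (c' := c) (high0 (f := fun x => f (join x c))
    (fun _ hφ => hf _ ((continuous_join c).comp hφ))
    (fun x y h => hop _ _ (leT_join_right x c)
      (join_leT (h.trans (leT_join_left y c)) (leT_join_right y c)))
    (fun z w => hh _ _ w (leT_join_right z c) (leT_join_left z c)) fun m => .of_closure (hg m))
    (fun _ _ => ⟨id, Computable.id, fun _ => rfl⟩)
    fun x hx => hop _ _ (leT_join_right x c) (join_leT (leT_refl x) hx)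

end Pool.Agent.Lib.MP_5684f0_lc.T.Bp
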