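import Pool.Agent.Lib.MP_5684f0_lc.G.Defs

namespace Pool.Agent.Lib.MP_5684f0_lc.T

open Filter

/-- Codes for countable ordinals: zero, one, and the sum of a sequence. -/
inductive Lay
  | zero : Lay
  | one : Lay
  | sum : (ℕ → Lay) → Lay

/-- `w` is obtained from `z` by limits iterated along the code. -/
def Dec : Lay → Cs → Cs → Prop
  | .zero, z, w => w = z
  | .one, z, w => ∀ q, ∀ᶠ s in atTop, z (Nat.pair q s) = w q
  | .sum L, z, w => ∃ v : ℕ → Cs, v 0 = z ∧
      ∀ n, Dec (L n) (v n) (v (n + 1)) ∧ ∀ j < n, v n j = w j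

/-- The class of sets obtained from a class `C` by pointwise limits iterated along the code. -/
def Cl : Lay → Set (Set Cs) → Set (Set Cs)
  | .zero, C => C
  | .one, C => {A | ∃ B : ℕ → Set Cs, (∀ s, B s ∈ C) ∧ ∀ y, ∀ᶠ s in atTop, (y ∈ B s ↔ y ∈ A)}
  | .sum L, C => ⋃ n : ℕ, Nat.rec C (fun n D => Cl (L n) D) n

/-- Countable unions of sets obtained from the clopen sets. -/
def Sg (L : Lay) (A : Set Cs) : Prop :=
  ∃ B : ℕ → Set Cs, (∀ n, B n ∈ Cl L {U | IsClopen U}) ∧ A = ⋃ n, B n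

end Pool.Agent.Lib.MP_5684f0_lc.T
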