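import Pool.Agent.Lib.MP_5684f0_lc.Main
import Pool.Agent.Lib.MP_5684f0_lc.T.Defs

/-! Classes of functions on Cantor space, indexed by the time at which they become available. -/

namespace Pool.Agent.Lib.MP_5684f0_lc.T

open Filter Topology Set

/-- Timed classes of functions. -/
abbrev Kl := ℕ → ∀ Λ : Type, (Cs → Λ) → Prop

/-- Limits iterated along a code, starting at time `c`. -/
def Ms : Lay → ℕ → Kl → Kl
  | .zero, _, C => C
  | .one, _, C => fun _ Λ φ => ∃ ψ : ℕ → Cs → Λ, (∀ t, C t Λ (ψ t)) ∧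
      ∀ y, ∀ᶠ t in atTop, ψ t y = φ y
  | .sum L, c, C => fun T => Nat.rec (motive := fun _ => Kl) C
      (fun n D => Ms (L n) (c + n + 1) D) (T - (c + 1)) T

/-- The first `n` terms of a sum. -/
def Cp (L : ℕ → Lay) (c : ℕ) (C : Kl) (n : ℕ) : Kl :=
  Nat.rec (motive := fun _ => Kl) C (fun n D => Ms (L n) (c + n + 1) D) n

/-- Closure properties of a class. -/
structure Good (C : Kl) : Prop where
  map₂ : ∀ {T : ℕ} {A B E : Type} (F : A → B → E) {φ : Cs → A} {ψ : Cs → B},
    C T A φ → C T B ψ → C T E fun y => F (φ y) (ψ y)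
  const : ∀ (T : ℕ) {A : Type} (a : A), C T A fun _ => a
  mono : ∀ {T T' : ℕ} {A : Type} {φ : Cs → A}, T ≤ T' → C T A φ → C T' A φ

theorem Good.map {C : Kl} (h : Good C) {T : ℕ} {A E : Type} (F : A → E) {φ : Cs → A}
    (h' : C T A φ) : C T E fun y => F (φ y) := h.map₂ (fun a _ => F a) h' h'

theorem Good.fin {C : Kl} (hC : Good C) {T : ℕ} {A E : Type} {φ : ℕ → Cs → A} (d : ℕ → A)
    (F : (ℕ → A) → E) (s : ℕ) (h : ∀ m < s, C T A (φ m)) :
    C T E fun y => F fun m => if m < s then φ m y else d m := by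
  induction s generalizing E with
  | zero => simpa using hC.const T (F d)
  | succ s ih =>
    convert hC.map₂ (fun a b => F (Function.update a s b))
      (ih id fun m hm => h m (by omega)) (h s (by omega)) using 3 with y
    funext m
    rcases lt_trichotomy m s with h | rfl | h
    · simp [h, h.ne, h.trans s.lt_succ_self]
    · simp
    · simp [h.ne', h.not_gt, show ¬ m < s + 1 by omega]

theorem cp_aux {L : ℕ → Lay} {c : ℕ} {C : Kl} (hC : Good C)
    (ih : ∀ n c {C}, Good C → Good (Ms (L n) c C) ∧ ∀ T A φ, C T A φ → Ms (L n) c C T A φ) :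
    (∀ n, Good (Cp L c C n)) ∧ ∀ n m, n ≤ m → ∀ T A φ, Cp L c C n T A φ → Cp L c C m T A φ := by
  have h1 : ∀ n, Good (Cp L c C n) := fun n => by
    induction n with
    | zero => exact hC
    | succ n h => exact (ih n _ h).1
  refine ⟨h1, fun n m h T A φ h' => ?_⟩
  induction h with
  | refl => exact h'
  | @step m _ h => exact (ih m _ (h1 m)).2 _ _ _ h

theorem Good.ms (L : Lay) : ∀ c {C : Kl}, Good C →
    Good (Ms L c C) ∧ ∀ T A φ, C T A φ → Ms L c C T A φ := by
  induction L with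
  | zero => exact fun c C h => ⟨h, fun _ _ _ h => h⟩
  | one =>
    refine fun c C h => ⟨⟨fun F φ ψ ⟨φ', a, b⟩ ⟨ψ', a', b'⟩ => ⟨fun s y => F (φ' s y) (ψ' s y),
      fun s => h.map₂ F (a s) (a' s), fun y => ?_⟩, fun T A a => ⟨fun _ _ => a,
        fun t => h.const t a, fun _ => Eventually.of_forall fun _ => rfl⟩, fun _ h => h⟩,
      fun T A φ h' => ⟨fun t => if T ≤ t then φ else fun _ => φ default, fun t => ?_,
        fun y => (eventually_ge_atTop T).mono fun t ht => by simp only [if_pos ht]⟩⟩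
    · filter_upwards [b y, b' y] with s h h'
      rw [h, h']
    · dsimp only
      split_ifs with ht
      exacts [h.mono ht h', h.const t _]
  | sum L ih =>
    intro c C h
    obtain ⟨h1, h2⟩ := cp_aux (c := c) h ih
    exact ⟨⟨fun F _ _ a b => (h1 _).map₂ F a b, fun T _ a => (h1 _).const T a,
      fun hT a => h2 _ _ (by omega) _ _ _ ((h1 _).mono hT a)⟩,
      fun T A φ a => h2 0 _ (Nat.zero_le _) _ _ _ a⟩

theorem Good.cp {L : ℕ → Lay} {c : ℕ} {C : Kl} (hC : Good C) :
    (∀ n, Good (Cp L c C n)) ∧ ∀ n m, n ≤ m → ∀ T A φ, Cp L c C n T A φ → Cp L c C m T A φ :=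
  cp_aux hC fun n => Good.ms (L n)

theorem Cl.ms (L : Lay) : ∀ c {C : Kl} {W : Set (Set Cs)}, Good C →
    (∀ A ∈ W, ∃ T, C T Prop (· ∈ A)) → ∀ A ∈ Cl L W, ∃ T, Ms L c C T Prop (· ∈ A) := by
  induction L with
  | zero => exact fun c C W _ h => h
  | one =>
    rintro c C W hC h A ⟨B, b1, b2⟩
    choose T hT using fun s => h _ (b1 s)
    let σ := fun t => Nat.findGreatest (fun s => T s ≤ t) t
    refine ⟨0, fun t => if T (σ t) ≤ t then (· ∈ B (σ t)) else fun _ => True, fun t => ?_,
      fun y => ?_⟩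
    · dsimp only
      split_ifs with ht
      exacts [hC.mono ht (hT _), hC.const t _]
    · obtain ⟨s, hs⟩ := eventually_atTop.1 (b2 y)
      filter_upwards [eventually_ge_atTop s, eventually_ge_atTop (T s)] with t h1 h2
      rw [if_pos (Nat.findGreatest_spec (P := fun s => T s ≤ t) h1 h2)]
      exact propext (hs _ (Nat.le_findGreatest h1 h2))
  | sum L ih =>
    intro c C W hC h A hA
    obtain ⟨n, hn⟩ := mem_iUnion.1 hA
    obtain ⟨h1, h2⟩ := hC.cp (L := L) (c := c)
    have h3 : ∀ n : ℕ, ∀ A ∈ (Nat.rec W (fun n D => Cl (L n) D) n : Set (Set Cs)),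
        ∃ T, Cp L c C n T Prop (· ∈ A) := fun n => by
      induction n with
      | zero => exact h
      | succ n h => exact ih n _ (h1 n) h
    obtain ⟨T, hT⟩ := h3 n A hn
    exact ⟨T + c + 1 + n, h2 n _ (by omega) _ _ _ ((h1 n).mono (by omega) hT)⟩

/-- The locally constant functions. -/
def C0 : Kl := fun _ _ φ => LC univ φ

theorem good_C0 : Good C0 :=
  ⟨fun F _ _ h h' y hy => by
    filter_upwards [h y hy, h' y hy] with y' a b
    rw [a, b], fun _ _ _ _ _ => Eventually.of_forall fun _ => rfl, fun _ h => h⟩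

end Pool.Agent.Lib.MP_5684f0_lc.T
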