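import Pool.Agent.Lib.MP_5684f0_lc.T.Defs

/-!
The statement of the hand-in `Levels` follows from the statement of `Ranks`.
Only the definitions are imported.
-/

namespace Pool.Agent.Lib.MP_5684f0_lc.T.Impl

open Filter Set

/-- The statement of `Ranks`. -/
def Rk : Prop :=
  ∀ (L : Lay) (f g : Cs → Cs) (c : Cs), Measurable f →
    (∀ x y, leT c x → leT x y → leM (f x) (f y)) →
    (∀ x z w, leT c x → leT z x → Dec L z w → leT (G.P 2 w) (f x)) →
    (∀ a, {x | g x a = true} ∈ BooleanSubalgebra.closure {A : Set Cs | Sg L A}) → leCone g f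

/-- The terms of the code of a natural number. -/
def tm (k n : ℕ) : Lay := if n < k then .one else .zero

/-- The iterated limit closure of the clopen sets. -/
def E : ℕ → Set (Set Cs)
  | 0 => {U | IsClopen U}
  | k + 1 => Cl .one (E k)

theorem E_alg (k : ℕ) :
    ∅ ∈ E k ∧ (∀ A ∈ E k, Aᶜ ∈ E k) ∧ ∀ A ∈ E k, ∀ B ∈ E k, A ∪ B ∈ E k := by
  induction k with
  | zero => exact ⟨isClopen_empty, fun A h => IsClopen.compl h, fun A h B h' => IsClopen.union h h'⟩
  | succ k ih =>
    obtain ⟨h0, h1, h2⟩ := ih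
    refine ⟨⟨fun _ => ∅, fun _ => h0, fun _ => Eventually.of_forall fun _ => Iff.rfl⟩, ?_, ?_⟩
    · rintro A ⟨B, b1, b2⟩
      exact ⟨fun s => (B s)ᶜ, fun s => h1 _ (b1 s), fun y => (b2 y).mono fun s h => not_congr h⟩
    · rintro A ⟨B, b1, b2⟩ A' ⟨B', b1', b2'⟩
      refine ⟨fun s => B s ∪ B' s, fun s => h2 _ (b1 s) _ (b1' s), fun y => ?_⟩
      filter_upwards [b2 y, b2' y] with s h h'
      exact or_congr h h'

theorem E_fin {k : ℕ} {C : ℕ → Set Cs} (h : ∀ m, C m ∈ E k) (s : ℕ) :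
    {y | ∃ m < s, y ∈ C m} ∈ E k := by
  induction s with
  | zero => simpa using (E_alg k).1
  | succ s ih =>
    have : {y | ∃ m < s + 1, y ∈ C m} = {y | ∃ m < s, y ∈ C m} ∪ C s := by
      ext y
      simp only [mem_ofPred_eq, mem_union, Nat.lt_succ_iff_lt_or_eq]
      exact ⟨fun ⟨m, h1, h2⟩ => h1.elim (fun h => Or.inl ⟨m, h, h2⟩) fun h => Or.inr (h ▸ h2),
        fun h => h.elim (fun ⟨m, h1, h2⟩ => ⟨m, Or.inl h1, h2⟩) fun h => ⟨s, Or.inr rfl, h⟩⟩
    rw [this]
    exact (E_alg k).2.2 _ ih _ (h s)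

theorem sg_E (k : ℕ) : ∀ A, G.Sg k A → ∃ B : ℕ → Set Cs, (∀ n, B n ∈ E k) ∧ A = ⋃ n, B n := by
  induction k with
  | zero =>
    intro A hA
    obtain ⟨S, hS, rfl⟩ := isTopologicalBasis_isClopen.open_eq_sUnion (show IsOpen A from hA)
    obtain ⟨U, hU, hUS, e⟩ := TopologicalSpace.isOpen_sUnion_countable S fun s h => (hS h).isOpen
    obtain ⟨B, hB⟩ := (hU.insert ∅).exists_eq_range (insert_nonempty _ _)
    refine ⟨B, fun n => ?_, ?_⟩
    · rcases (hB ▸ mem_range_self n : B n ∈ insert ∅ U) with h | h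
      · exact h ▸ isClopen_empty
      · exact hS (hUS h)
    · rw [← e, ← sUnion_range, ← hB, sUnion_insert, empty_union]
  | succ k ih =>
    rintro A ⟨B, hB, rfl⟩
    refine ⟨_, fun n => ?_, rfl⟩
    obtain ⟨C, hC, e⟩ := ih _ (hB n)
    refine ⟨fun s => {y | ∃ m < s, y ∈ C m}ᶜ, fun s => (E_alg k).2.1 _ (E_fin hC s), fun y => ?_⟩
    rw [e]
    by_cases hy : y ∈ ⋃ m, C m
    · obtain ⟨m, hm⟩ := mem_iUnion.1 hy
      filter_upwards [eventually_gt_atTop m] with s hs
      exact iff_of_false (fun h => h ⟨m, hs, hm⟩) fun h => h hy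
    · exact Eventually.of_forall fun s =>
        iff_of_true (fun ⟨m, _, hm⟩ => hy (mem_iUnion.2 ⟨m, hm⟩)) hy

theorem rec_E (k : ℕ) : ∀ n ≤ k,
    (Nat.rec {U | IsClopen U} (fun n D => Cl (tm k n) D) n : Set (Set Cs)) = E n := by
  intro n hn
  induction n with
  | zero => rfl
  | succ n ih =>
    show Cl (tm k n) _ = Cl .one (E n)
    rw [ih (by omega), tm, if_pos (by omega)]

theorem sg (k : ℕ) {A : Set Cs} (h : G.Sg k A) : Sg (.sum (tm k)) A := by
  obtain ⟨B, hB, e⟩ := sg_E k A h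
  exact ⟨B, fun n => mem_iUnion.2 ⟨k, (rec_E k k le_rfl).symm ▸ hB n⟩, e⟩

open Classical in
theorem dec {k : ℕ} {z w : Cs} (h : Dec (.sum (tm k)) z w) (b : Bool) : G.T b k z = w := by
  obtain ⟨v, rfl, hv⟩ := h
  have h1 : ∀ n ≤ k, ∀ b, G.T b n (v 0) = v n := by
    intro n hn
    induction n with
    | zero => intro b; cases b <;> rfl
    | succ n ih =>
      have h2 : ∀ q, ∀ᶠ s in atTop, v n (Nat.pair q s) = v (n + 1) q := by
        have := (hv n).1
        rwa [tm, if_pos (by omega)] at this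
      intro b
      funext q
      cases b <;> simp only [G.T] <;> rw [ih (by omega)] <;> cases e : v (n + 1) q
      · exact decide_eq_false fun h => by
          obtain ⟨s, a, a'⟩ := (h.and (h2 q)).exists
          simp [a, e] at a'
      · exact decide_eq_true ((h2 q).mono fun s a => a.trans e)
      · exact decide_eq_false fun h => by
          obtain ⟨s, a, a'⟩ := (h.and_eventually (h2 q)).exists
          simp [a, e] at a'
      · exact decide_eq_true ((h2 q).mono fun s a => a.trans e).frequently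
  have h3 : ∀ n, v (k + n) = v k := by
    intro n
    induction n with
    | zero => rfl
    | succ n ih =>
      have := (hv (k + n)).1
      rw [tm, if_neg (by omega)] at this
      exact Eq.trans this ih
  rw [h1 k le_rfl]
  funext j
  rw [← h3 (j + 1)]
  exact (hv _).2 j (by omega)

theorem shift {k : ℕ} {z w : Cs} (h : ∀ b, G.T b k z = w) (j : ℕ) :
    ∀ b, G.T b (k + j) z = G.T b j w := by
  induction j with
  | zero => intro b; rw [Nat.add_zero, h b]; cases b <;> rfl
  | succ j ih =>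
    intro b
    rw [← Nat.add_assoc]
    cases b <;> simp only [G.T] <;> rw [ih]

/-- The statement of `Levels`. -/
theorem levels (H : Rk) (k : ℕ) (f g : Cs → Cs) (c : Cs)
    (hf : Measurable f) (hop : ∀ x y, leT c x → leT x y → leM (f x) (f y))
    (hh : ∀ x z, leT c x → leT z x → leT (G.P (k + 2) z) (f x))
    (hg : ∀ a, {x | g x a = true} ∈ BooleanSubalgebra.closure {A : Set Cs | G.Sg k A}) :
    leCone g f := by
  refine H (.sum (tm k)) f g c hf hop (fun x z w hx hz hd => ?_) fun a =>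
    BooleanSubalgebra.closure_mono (fun A hA => sg k hA) (hg a)
  have : G.P 2 w = G.P (k + 2) z := by
    unfold G.P
    rw [shift (dec hd) 2 true]
  rw [this]
  exact hh x z hx hz

end Pool.Agent.Lib.MP_5684f0_lc.T.Impl
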