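import Pool.Agent.Lib.MP_5684f0_lc.T.Impl

/-! The first form of `Ranks` (Borel functions) follows from the form with the Baire property. -/

namespace Pool.Agent.Lib.MP_5684f0_lc.T.Impl

/-- The statement of `Ranks` with the Baire property. -/
def RkB : Prop :=
  ∀ (L : Lay) (f g : Cs → Cs) (c : Cs),
    (∀ φ : (ℕ → ℕ) → Cs, Continuous φ → ∀ a, BaireMeasurableSet {y | f (φ y) a = true}) →
    (∀ x y, leT c x → leT x y → leM (f x) (f y)) →
    (∀ x z w, leT c x → leT z x → Dec L z w → leT (G.P 2 w) (f x)) →
    (∀ a, {x | g x a = true} ∈ BooleanSubalgebra.closure {A : Set Cs | Sg L A}) → leCone g f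

theorem borel (H : RkB) : Rk := fun L f g c hf =>
  H L f g c fun _ hφ a => MeasurableSet.baireMeasurableSet
    ((measurable_pi_apply a).comp (hf.comp hφ.measurable) (measurableSet_singleton true))

end Pool.Agent.Lib.MP_5684f0_lc.T.Impl
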