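import Pool.Agent.Lib.MP_5684f0_lc.T.Sum
import Pool.Agent.Lib.MP_5684f0_lc.G.Level

/-! A real that codes another one by limits iterated along a code. -/

namespace Pool.Agent.Lib.MP_5684f0_lc.T

open Filter Topology Set PiNat G

/-- One limit, the first `c` bits being copied. -/
def S1 (c : ℕ) (z : Cs) (k : ℕ → ℕ × Bool) : Cs := fun j => if j < c then z j else H.S z k j

/-- Finite compositions. -/
def Zf (F : ℕ → Cs → Cs) (z : Cs) : ℕ → ℕ → Cs
  | 0, _ => z
  | f + 1, n => F n (Zf F z f (n + 1))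

/-- Infinite compositions. -/
def Zl (F : ℕ → Cs → Cs) (z : Cs) (n : ℕ) : Cs := fun j => Zf F z (j + 1) n j

/-- The coding map of a code. -/
def Sc : Lay → ℕ → (ℕ → ℕ → ℕ × Bool) → Cs → Cs
  | .zero, _, _, z => z
  | .one, c, κ, z => S1 c z (κ 0)
  | .sum L, c, κ, z => Zl (fun n => Sc (L n) (c + n + 1) fun a => κ (Nat.pair n a)) z 0

theorem Zl_congr {F F' : ℕ → Cs → Cs} {z z' : Cs} {M n : ℕ} (hz : z ∈ cylinder z' M)
    (h : ∀ m, n ≤ m → ∀ u v, u ∈ cylinder v M → F m u ∈ cylinder (F' m v) M) :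
    Zl F z n ∈ cylinder (Zl F' z' n) M := by
  have h1 : ∀ f m, n ≤ m → Zf F z f m ∈ cylinder (Zf F' z' f m) M := fun f => by
    induction f with
    | zero => exact fun _ _ => hz
    | succ f ih => exact fun m hm => h m hm _ _ (ih (m + 1) (by omega))
  exact fun j hj => h1 _ n le_rfl j hj

theorem Zl_pre {F : ℕ → Cs → Cs} {c : ℕ} (h : ∀ n u, F n u ∈ cylinder u (c + n + 1)) (z : Cs)
    (n : ℕ) : Zl F z n ∈ cylinder z (c + n + 1) := by
  have h1 : ∀ f n, Zf F z f n ∈ cylinder z (c + n + 1) := fun f => by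
    induction f with
    | zero => exact fun _ => self_mem_cylinder _ _
    | succ f ih => exact fun n => cyl_trans (h n _) (cylinder_anti _ (by omega) (ih (n + 1)))
  exact fun j hj => h1 _ n j hj

theorem Zl_fix {F : ℕ → Cs → Cs} {c : ℕ} (h : ∀ n u, F n u ∈ cylinder u (c + n + 1))
    (h' : ∀ n M u v, u ∈ cylinder v M → F n u ∈ cylinder (F n v) M) (z : Cs) (n : ℕ) :
    Zl F z n = F n (Zl F z (n + 1)) := by
  have h1 : ∀ f n, Zf F z (f + 1) n ∈ cylinder (Zf F z f n) (n + f) := fun f => by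
    induction f with
    | zero => exact fun n => cylinder_anti _ (by omega) (h n z)
    | succ f ih => exact fun n => h' n _ _ _ (cylinder_anti _ (by omega) (ih (n + 1)))
  have h2 : ∀ n f f', f ≤ f' → Zf F z f' n ∈ cylinder (Zf F z f n) f := fun n f f' hf => by
    induction hf with
    | refl => exact self_mem_cylinder _ _
    | @step g hg ih =>
      have hg : f ≤ g := hg
      exact cyl_trans (cylinder_anti _ (by omega) (h1 g n)) ih
  funext j
  exact (h2 n (j + 1) (j + 2) (by omega) j (by omega)).symm.trans (h' n (j + 1) _ _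
    (fun i hi => h2 (n + 1) (i + 1) (j + 1) hi i (by omega)) j (by omega))

theorem S1_congr {c M : ℕ} {z z' : Cs} {k k' : ℕ → ℕ × Bool} (hz : z ∈ cylinder z' M)
    (hk : k ∈ cylinder k' M) : S1 c z k ∈ cylinder (S1 c z' k') M := fun j hj => by
  simp only [S1, hz j hj, H.S_congr hz hk j hj]

theorem Sc_congr (L : Lay) : ∀ c {κ κ' : ℕ → ℕ → ℕ × Bool} {M : ℕ}, (∀ a, κ a ∈ cylinder (κ' a) M) →
    ∀ z z', z ∈ cylinder z' M → Sc L c κ z ∈ cylinder (Sc L c κ' z') M := by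
  induction L with
  | zero => exact fun _ _ _ _ _ _ _ h => h
  | one => exact fun _ _ _ _ hk _ _ h => S1_congr h (hk 0)
  | sum L ih => exact fun c _ _ _ hk _ _ h => Zl_congr h fun m _ => ih m _ fun _ => hk _

theorem Sc_pre (L : Lay) : ∀ c κ z, Sc L c κ z ∈ cylinder z c := by
  induction L with
  | zero => exact fun _ _ _ => self_mem_cylinder _ _
  | one => exact fun _ _ _ j hj => if_pos hj
  | sum L ih => exact fun c κ z => cylinder_anti _ (by omega) (Zl_pre (fun n => ih n _ _) z 0)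

theorem Sc_fix (L : ℕ → Lay) (c : ℕ) (κ : ℕ → ℕ → ℕ × Bool) (z : Cs) (n : ℕ) :
    Zl (fun n => Sc (L n) (c + n + 1) fun a => κ (Nat.pair n a)) z n =
      Sc (L n) (c + n + 1) (fun a => κ (Nat.pair n a))
        (Zl (fun n => Sc (L n) (c + n + 1) fun a => κ (Nat.pair n a)) z (n + 1)) :=
  Zl_fix (fun n => Sc_pre (L n) _ _)
    (fun n _ => Sc_congr (L n) _ fun _ => self_mem_cylinder _ _) z n

theorem S1_lim (c : ℕ) (z : Cs) (k : ℕ → ℕ × Bool) (q : ℕ) :
    ∀ᶠ s in atTop, S1 c z k (Nat.pair q s) = z q := by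
  filter_upwards [H.S_lim z k q, eventually_ge_atTop c] with s h1 h2
  rw [S1, if_neg (h2.trans (Nat.right_le_pair q s)).not_gt, h1]

theorem Sc_dec (L : Lay) : ∀ c κ z, Dec L (Sc L c κ z) z := by
  induction L with
  | zero => exact fun _ _ _ => rfl
  | one => exact fun c κ z => S1_lim c z _
  | sum L ih =>
    refine fun c κ z => ⟨Zl (fun n => Sc (L n) (c + n + 1) fun a => κ (Nat.pair n a)) z, rfl,
      fun n => ⟨?_, fun j hj => Zl_pre (fun n => Sc_pre (L n) _ _) z n j (by omega)⟩⟩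
    rw [Sc_fix L c κ z n]
    exact ih n _ _ _

/-- A letter codes a bit and finitely many moduli and early values. -/
noncomputable def dc : ℕ ≃ Bool × (ℕ →₀ ℕ × Bool) := Classical.choice nonempty_equiv_of_countable

/-- The top real. -/
noncomputable def tp (y : Y ℕ) : Cs := fun n => (dc (y n)).1
/-- The moduli and early values at an address. -/
noncomputable def cv (y : Y ℕ) (a n : ℕ) : ℕ × Bool := (dc (y n)).2 a

open Classical in
/-- A real together with the data at the addresses in `U`. -/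
noncomputable def lev (z : Y ℕ → Cs) (U : Set ℕ) (y : Y ℕ) (n : ℕ) : Bool × (ℕ → ℕ × Bool) :=
  (z y n, fun a => if a ∈ U then cv y a n else default)

theorem lev_iff {z : Y ℕ → Cs} {U : Set ℕ} {M : ℕ} {y y' : Y ℕ} :
    lev z U y ∈ cylinder (lev z U y') M ↔
      z y ∈ cylinder (z y') M ∧ ∀ a ∈ U, cv y a ∈ cylinder (cv y' a) M :=
  ⟨fun h => ⟨fun n hn => congrArg Prod.fst (h n hn), fun j hj n hn => by
    simpa only [lev, if_pos hj] using congrFun (congrArg Prod.snd (h n hn)) j⟩,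
    fun h n hn => Prod.ext (h.1 n hn) (funext fun j => by
      simp only [lev]; split_ifs with hj; exacts [h.2 j hj n hn, rfl])⟩

/-- The real does not depend on the addresses in `U`. -/
def Ind (U : Set ℕ) (z : Y ℕ → Cs) : Prop :=
  ∀ y y', tp y = tp y' → (∀ a ∉ U, cv y a = cv y' a) → z y = z y'

theorem amal {U W : Set ℕ} {z : Y ℕ → Cs} {a0 c : ℕ} (h0 : a0 ∈ U ∧ a0 ∉ W) (hW : W ⊆ U)
    (hz : Ind U z) (x x0 : Y ℕ) (l M : ℕ) (hc : c ≤ l) (h : lev z U x ∈ cylinder (lev z U x0) l) :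
    ∃ x' ∈ cylinder x0 l, lev (fun y => S1 c (z y) (cv y a0)) W x' ∈
      cylinder (lev (fun y => S1 c (z y) (cv y a0)) W x) M ∧ tp x' = tp x0 := by
  classical
  obtain ⟨h1, h2⟩ := lev_iff.1 h
  obtain ⟨k, k1, k2⟩ := H.S_fix h1 (cv x a0) M
  let x' : Y ℕ := fun n => dc.symm (tp x0 n, Finsupp.onFinset
    (insert a0 ((dc (x n)).2.support ∪ (dc (x0 n)).2.support))
    (fun a => if a = a0 then k n else if a ∈ U then cv x a n else cv x0 a n) fun a ha => by
      simp only [Finset.mem_insert, Finset.mem_union, Finsupp.mem_support_iff]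
      split_ifs at ha with b1 b2
      exacts [Or.inl b1, Or.inr (Or.inl ha), Or.inr (Or.inr ha)])
  have e : ∀ a n, cv x' a n = if a = a0 then k n else if a ∈ U then cv x a n else cv x0 a n :=
    fun a n => by simp only [x', cv, Equiv.apply_symm_apply, Finsupp.onFinset_apply]
  have e0 : tp x' = tp x0 := funext fun n => by simp only [x', tp, Equiv.apply_symm_apply]
  have e1 : z x' = z x0 := hz _ _ e0 fun a ha => funext fun n => by
    rw [e, if_neg fun h : a = a0 => ha (h ▸ h0.1), if_neg ha]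
  refine ⟨x', fun n hn => dc.injective (Prod.ext (congrFun e0 n) (Finsupp.ext fun a => ?_)),
    lev_iff.2 ⟨fun j hj => ?_, fun a ha n _ => by
      rw [e, if_neg fun h : a = a0 => h0.2 (h ▸ ha), if_pos (hW ha)]⟩, e0⟩
  · refine (e a n).trans ?_
    split_ifs with b1 b2
    exacts [(k1 n hn).trans (b1 ▸ h2 a0 h0.1 n hn), h2 a b2 n hn, rfl]
  · simp only [S1, e1, show cv x' a0 = k from funext fun n => by simp [e], k2 j hj]
    split_ifs with b
    exacts [(h1 j (by omega)).symm, rfl]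

theorem tower (L : Lay) : ∀ (c : ℕ) {ι : ℕ → ℕ} {U W : Set ℕ} {z : Y ℕ → Cs},
    Function.Injective ι → W ⊆ U → (∀ a, ι a ∈ U ∧ ι a ∉ W) → Ind U z →
    Tower L c (lev z U) (lev (fun y => Sc L c (fun a => cv y (ι a)) (z y)) W) := by
  induction L with
  | zero => exact fun c ι U W z _ hW _ _ _ _ _ h =>
      lev_iff.2 ⟨(lev_iff.1 h).1, fun a ha => (lev_iff.1 h).2 a (hW ha)⟩
  | one => exact fun c ι U W z _ hW h0 hz => ⟨fun _ _ _ h => lev_iff.2
      ⟨S1_congr (lev_iff.1 h).1 ((lev_iff.1 h).2 _ (h0 0).1), fun a ha => (lev_iff.1 h).2 a (hW ha)⟩,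
      fun x x0 l M hc h => (amal (h0 0) hW hz x x0 l M hc h).imp fun _ h => ⟨h.1, h.2.1⟩⟩
  | sum L ih =>
    intro c ι U W z hι hW h0 hz
    let V : ℕ → Set ℕ := fun n => W ∪ {b | ∃ i < n, ∃ a, b = ι (Nat.pair i a)}
    have v1 : ∀ n, V n ⊆ U := fun n => union_subset hW fun b ⟨_, _, _, h⟩ => h ▸ (h0 _).1
    have v2 : ∀ n m a, n ≤ m → ι (Nat.pair m a) ∉ V n := fun n m a h h' =>
      h'.elim (h0 _).2 fun ⟨i, hi, a', e⟩ => by
        have := (Nat.pair_eq_pair.1 (hι e)).1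
        omega
    refine ⟨fun n => lev (fun y => Zl (fun n => Sc (L n) (c + n + 1)
      fun a => cv y (ι (Nat.pair n a))) (z y) n) (V n), by simp [V, Sc], fun n => ⟨fun _ _ _ h =>
        lev_iff.2 ⟨Zl_congr (lev_iff.1 h).1 fun m _ => Sc_congr _ _ fun a =>
          (lev_iff.1 h).2 _ (h0 _).1, fun a ha => (lev_iff.1 h).2 a (v1 n ha)⟩, ?_⟩⟩
    dsimp only
    rw [funext fun y => Sc_fix L c (fun a => cv y (ι a)) (z y) n]
    refine ih n _ (ι := fun a => ι (Nat.pair n a)) (fun a a' h => (Nat.pair_eq_pair.1 (hι h)).2)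
      (union_subset_union_right _ fun b ⟨i, hi, h⟩ => ⟨i, by omega, h⟩)
      (fun a => ⟨Or.inr ⟨n, by omega, a, rfl⟩, v2 n n a le_rfl⟩) fun y y' h1 h2 => funext fun j =>
        Zl_congr (M := j + 1) (by
          rw [hz y y' h1 fun a ha => h2 a fun h => ha (v1 _ h)]; exact self_mem_cylinder _ _)
          (fun m hm => Sc_congr _ _ fun a => by
            rw [h2 _ (v2 _ m a hm)]; exact self_mem_cylinder _ _) j (Nat.lt_succ_self j)

/-- The three upper levels. -/
noncomputable def Hl (y : Y ℕ) : ℕ → Cs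
  | 0 => tp y
  | i + 1 => S1 0 (Hl y i) (cv y i)

/-- The data from level `i` on. -/
noncomputable def R (i : ℕ) : Y ℕ → ℕ → Bool × (ℕ → ℕ × Bool) := lev (Hl · i) {a | i ≤ a}

theorem ind_Hl (i : ℕ) : Ind {a | i ≤ a} (Hl · i) := fun y y' h1 h2 => by
  induction i with
  | zero => exact h1
  | succ i ih =>
    have := ih fun a ha => h2 a fun h => ha (Nat.le_of_succ_le h)
    simp only [Hl, h2 i (Nat.not_succ_le_self i)] at this ⊢
    rw [this]

theorem rs (i : ℕ) : Lip (R i) (R (i + 1)) := fun _ _ _ h =>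
  lev_iff.2 ⟨S1_congr (lev_iff.1 h).1 ((lev_iff.1 h).2 i (le_refl i)),
    fun j hj => (lev_iff.1 h).2 j (Nat.le_of_succ_le hj)⟩

theorem rl (i : ℕ) : Lip id (R i) := by
  induction i with
  | zero => exact fun y z M h => lev_iff.2 ⟨fun n hn => by
      simp only [Hl, tp, show y n = z n from h n hn],
      fun j _ n hn => by simp only [cv, show y n = z n from h n hn]⟩
  | succ i ih => exact fun y z M h => rs i (ih h)

theorem amal' (i : ℕ) (x z : Y ℕ) (l M : ℕ) (h : R i x ∈ cylinder (R i z) l) :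
    ∃ x' ∈ cylinder z l, R (i + 1) x' ∈ cylinder (R (i + 1) x) M ∧ tp x' = tp z :=
  amal (W := {a | i + 1 ≤ a}) ⟨le_refl i, Nat.not_succ_le_self i⟩
    (fun _ h => Nat.le_of_succ_le h) (ind_Hl i) x z l M (Nat.zero_le l) h

theorem T_Hl (y : Y ℕ) (j : ℕ) : ∀ b i, G.T b j (Hl y (i + j)) = Hl y i := by
  induction j with
  | zero => intro b i; cases b <;> rfl
  | succ j ih =>
    intro b i
    funext q
    have h := (S1_lim 0 (Hl y i) (cv y i) q).mono fun r h => congrArg (· = true) h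
    rw [show i + (j + 1) = i + 1 + j by omega]
    cases b <;> simp only [G.T, ih, Hl, Bool.eq_iff_iff (b := Hl y i q), decide_eq_true_eq]
    exacts [(eventually_congr (h.mono fun r h => h.to_iff)).trans eventually_const,
      (frequently_congr (h.mono fun r h => h.to_iff)).trans frequently_const]

theorem exists_free {h : Y ℕ → Cs} {V : ℕ → Bool → Set (Y ℕ)}
    (hV : ∀ a b, IsOpen (V a b)) (hG : ∀ᶠ y in residual _, ∀ a, y ∈ V a (h y a))
    (hh : ∀ y, leT (P 2 (Hl y 3)) (h y)) (A : Set (Y ℕ)) (hA : IsOpen A)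
    (hne : A.Nonempty) : ∃ O a, IsOpen O ∧ O.Nonempty ∧ O ⊆ A ∧ Free (R 3) V O a := by
  have hP : ∀ (y : Y ℕ) n, P 2 (Hl y 3) n = true ↔
      ∀ s, Hl y 1 (Nat.pair n s) = true := fun y n => by
    simp only [P, T_Hl y 2 true 1, decide_eq_true_eq]
  by_contra hno
  have s1 : ∀ O a, IsOpen O → O.Nonempty → O ⊆ A →
      ∃ y1 ∈ O, ∃ l b, ∀ y ∈ O, R 2 y ∈ cylinder (R 2 y1) l → y ∉ V a b := by
    intro O a o1 o2 o3
    by_contra hc
    push Not at hc
    refine hno ⟨O, a, o1, o2, o3, fun B b1 ⟨y1, hy1⟩ b3 b => ?_⟩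
    obtain ⟨l, hl⟩ := (ev_cyl (b1.mem_nhds hy1)).exists
    obtain ⟨y, c1, c2, c3⟩ := hc y1 (b3 hy1) l b
    refine ⟨(O ∩ V a b) ∩ {y | R 2 y ∈ cylinder (R 2 y1) l}, (o1.inter (hV a b)).inter
      (op_of (rl 2) _ _), ⟨y, ⟨c1, c3⟩, c2⟩, inter_subset_left, fun z hz M => ?_⟩
    obtain ⟨x, k1, k2, -⟩ := amal' 2 z y1 l M hz.2
    exact ⟨x, hl k1, k2⟩
  have s2 : ∀ (y0 : Y ℕ) (m0 a : ℕ), ∀ᶠ y in residual _, cylinder y0 m0 ⊆ A →
      y ∈ cylinder y0 m0 →
      ∃ M b, ∀ y' ∈ cylinder y0 m0, R 1 y' ∈ cylinder (R 1 y) M → y' ∉ V a b := by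
    intro y0 m0 a
    refine residual_of_dense_open (isOpen_iff_mem_nhds.2 fun y hy => ?_)
      (dense_iff_inter_open.2 fun U hU ⟨z, hz⟩ => ?_)
    · by_cases h1 : cylinder y0 m0 ⊆ A ∧ y ∈ cylinder y0 m0
      · obtain ⟨M, b, hb⟩ := hy h1.1 h1.2
        filter_upwards [(cyl_open y M).mem_nhds (self_mem_cylinder y M)] with y1 h2 _ _
        exact ⟨M, b, fun y' h3 h4 => hb y' h3 (cyl_trans h4 (rl 1 h2))⟩
      · filter_upwards [(cyl_open y m0).mem_nhds (self_mem_cylinder y m0)] with y1 h2 h3 h4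
        exact absurd ⟨h3, cyl_trans (cyl_symm h2) h4⟩ h1
    by_cases h1 : cylinder y0 m0 ⊆ A ∧ z ∈ cylinder y0 m0
    swap
    · exact ⟨z, hz, fun h2 h3 => absurd ⟨h2, h3⟩ h1⟩
    obtain ⟨m, hm⟩ := (ev_cyl (hU.mem_nhds hz)).exists
    obtain ⟨y1, c1, l, b, c2⟩ := s1 (cylinder y0 m0 ∩ {y | R 1 y ∈ cylinder (R 1 z) m}) a
      ((cyl_open _ _).inter (op_of (rl 1) _ _)) ⟨z, h1.2, self_mem_cylinder _ _⟩
      (inter_subset_left.trans h1.1)
    obtain ⟨y, h2, k2, -⟩ := amal' 1 y1 z m l c1.2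
    exact ⟨y, hm h2, fun _ _ => ⟨max l m, b, fun y' h3 h4 => c2 y' ⟨h3, cyl_trans
      (cylinder_anti _ (le_max_right l m) h4) (rl 1 h2)⟩ (cyl_trans
      (rs 1 (cylinder_anti _ (le_max_left l m) h4)) k2)⟩⟩
  let r := TopologicalSpace.denseSeq (Y ℕ)
  obtain ⟨G, g1, g2, g3⟩ := mem_residual.1 (hG.and (eventually_countable_forall.2 fun i =>
    eventually_countable_forall.2 fun m0 => eventually_countable_forall.2 (s2 (r i) m0)))
  obtain ⟨z, z1, z2⟩ := (g2.dense_iUnion_interior_of_closed g3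
    (f := fun e => closure {y | y ∈ G ∧
      U.ev (h y) e = fun n => Part.some (bit (P 2 (Hl y 3) n))})
    (fun _ => isClosed_closure) fun y hy => by
      obtain ⟨e, he⟩ := U.exists_code (leT_iff.1 (hh y))
      exact mem_iUnion.2 ⟨e, subset_closure ⟨hy, he⟩⟩).inter_open_nonempty A hA hne
  obtain ⟨e, he⟩ := mem_iUnion.1 z2
  obtain ⟨i, hk⟩ := (TopologicalSpace.denseRange_denseSeq (Y ℕ)).exists_mem_open
    (hA.inter isOpen_interior) ⟨z, z1, he⟩
  obtain ⟨n, hn⟩ := (ev_cyl ((hA.inter isOpen_interior).mem_nhds hk)).exists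
  have pick : ∀ W : Set (Y ℕ), IsOpen W → (cylinder (r i) n ∩ W).Nonempty →
      ∃ y ∈ cylinder (r i) n ∩ W, y ∈ G ∧
        U.ev (h y) e = fun n => Part.some (bit (P 2 (Hl y 3) n)) := fun W hW ⟨y, hy⟩ =>
    mem_closure_iff.1 (interior_subset (hn hy.1).2) _ ((cyl_open _ _).inter hW) hy
  have opn : ∀ P : ℕ → Prop, IsOpen {y : Y ℕ | P (y n)} := fun P =>
    (isOpen_discrete {d | P d}).preimage (continuous_apply n)
  obtain ⟨y, ⟨y1, y2⟩, y3, y4⟩ := pick _ (opn fun d => d = dc.symm (true, 0))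
    ⟨Function.update (r i) n (dc.symm (true, 0)),
      fun i hi => Function.update_of_ne hi.ne _ _, by simp⟩
  have t1 : P 2 (Hl y 3) n = true := (hP y n).2 fun s => by
    simp [Hl, S1, H.S, cv, tp, show y n = _ from y2]
  obtain ⟨k0, hk0⟩ := exists_cyl_subset (U.ev_open (h y) e n 1 (by simp [y4, bit, t1]))
  choose M b hb using fun a => (g1 y3).2 i n a (fun _ h => (hn h).1) y1
  have t0 : y ∈ cylinder (Function.update y n (dc.symm (false, 0))) n :=
    fun i hi => by rw [Function.update_of_ne hi.ne]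
  obtain ⟨x, k1, k2, k3⟩ := amal' 0 y _ n ((Finset.range k0).sup M) (rl 0 t0)
  obtain ⟨y', ⟨a1, a2, a3⟩, a4, a5⟩ := pick _
    ((op_of (rl 1) (R 1 y) ((Finset.range k0).sup M)).inter (opn fun d => (dc d).1 = false))
    ⟨x, cyl_trans k1 (cyl_trans (cyl_symm t0) y1), k2, by simpa [tp] using congrFun k3 n⟩
  have t2 : h y' ∈ cylinder (h y) k0 := fun a ha => by
    have b1 := hb a y y1 (self_mem_cylinder _ _)
    have b2 := hb a y' a1 (cylinder_anti _ (Finset.le_sup (Finset.mem_range.2 ha)) a2)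
    have b3 : h y a ≠ b a := fun h => b1 (h ▸ (g1 y3).1 a)
    have b4 : h y' a ≠ b a := fun h => b2 (h ▸ (g1 a4).1 a)
    revert b3 b4
    cases h y a <;> cases h y' a <;> cases b a <;> simp
  have t3 : P 2 (Hl y' 3) n = true :=
    by_contra fun h => by simpa [a5, bit, h] using hk0 t2
  obtain ⟨s, hs⟩ := (S1_lim 0 (Hl y' 0) (cv y' 0) n).exists
  have t4 := hs.symm.trans ((hP y' n).1 t3 s)
  exact Bool.false_ne_true ((show tp y' n = false from a3).symm.trans t4)

end Pool.Agent.Lib.MP_5684f0_lc.T
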