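import Pool.Agent.Lib.MP_5684f0_lc.G.Game
import Pool.Agent.Lib.MP_5684f0_lc.T.Cls

/-! Strategies as functions of the history, and the removal of one limit. -/

namespace Pool.Agent.Lib.MP_5684f0_lc.T

open Filter Topology Set PiNat G

variable {D α : Type} {O : ℕ → Set (Y D)} {p p' : Y D → ℕ → α}

/-- Moves of the lower level. -/
abbrev Mv (D : Type) := (ℕ → Y D) × ℕ
/-- Sequences of moves. -/
abbrev Hi (D : Type) := ℕ → Mv D

/-- Answers of the builder. -/
structure Out (O : ℕ → Set (Y D)) where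
  x : ℕ → Y D
  b : ℕ
  l : ℕ
  ok : b ≤ l ∧ (∀ m, x m ∈ O m) ∧ ∀ m < b, cylinder (x m) l ⊆ O m

/-- A move that respects an answer. -/
def Out.Lg (o : Out O) (m : Mv D) : Prop := Leg O o.x o.b o.l m.1 m.2

/-- An answer that respects a move. -/
def Rs (p : Y D → ℕ → α) (m : Mv D) (o : Out O) : Prop := Agr p o.x m.1 m.2 ∧ m.2 < o.b

open Classical in
/-- An answer that does not respect the move is replaced. -/
noncomputable def val (p : Y D → ℕ → α) (m : Mv D) (o : Out O) : Out O :=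
  if Rs p m o then o else @epsilon _ ⟨o⟩ (Rs p m)

theorem val_of {m : Mv D} {o : Out O} (h : Rs p m o) : val p m o = o := if_pos h

theorem Rs.lip {m : Mv D} {o : Out O} (h : Rs p m o) (hp : Lip p p') : Rs p' m o :=
  ⟨fun k hk => hp (h.1 k hk), h.2⟩

/-- Every move inside the base can be answered. -/
def Opn (O : ℕ → Set (Y D)) : Prop :=
  ∀ w : ℕ → Y D, (∀ m, w m ∈ O m) → ∀ b, ∃ l, b ≤ l ∧ ∀ m < b, cylinder (w m) l ⊆ O m

theorem val_rs (hO : Opn O) {m : Mv D} (h : ∀ k, m.1 k ∈ O k) (o : Out O) :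
    Rs p m (val p m o) := by
  unfold val
  split_ifs with h'
  · exact h'
  · obtain ⟨l, h1, h2⟩ := hO m.1 h (m.2 + 1)
    exact Classical.epsilon_spec (p := Rs p m) ⟨⟨m.1, m.2 + 1, l, h1, h, h2⟩,
      fun _ _ => self_mem_cylinder _ _, Nat.lt_succ_self _⟩

variable [Inhabited D]

/-- The first `n` moves. -/
def cut (n : ℕ) (π : Hi D) : Hi D := fun i => if i < n then π i else default

/-- The answer after `t` moves. -/
noncomputable def ans (p : Y D → ℕ → α) (π : Hi D) : ℕ → (Hi D → Out O) → Out O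
  | 0, f => f default
  | t + 1, f => val p (π t) (f (cut (t + 1) π))

theorem ans_congr {π π' : Hi D} {t : ℕ} (h : ∀ i < t, π i = π' i) (f : Hi D → Out O) :
    ans p π t f = ans p π' t f := by
  rcases t with _ | t
  · rfl
  · rw [ans, ans, h t (Nat.lt_succ_self t), show cut (t + 1) π = cut (t + 1) π' from
      funext fun i => by unfold cut; split_ifs with hi; exacts [h i hi, rfl]]

/-- The first `h` moves are legal. -/
def Fn (p : Y D → ℕ → α) (f : ℕ → Hi D → Out O) (π : Hi D) (h : ℕ) : Prop :=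
  ∀ t < h, (ans p π t (f t)).Lg (π t)

/-- All moves are legal. -/
def Play (p : Y D → ℕ → α) (f : ℕ → Hi D → Out O) (π : Hi D) : Prop :=
  ∀ t, (ans p π t (f t)).Lg (π t)

/-- Each move of the upper play agrees with the move of the same number of the lower play. -/
def Tr (p : Y D → ℕ → α) (π π' : Hi D) : Prop :=
  ∀ t, (π' t).2 ≤ (π t).2 ∧ Agr p (π t).1 (π' t).1 (π' t).2

theorem ans_rs (hO : Opn O) {π : Hi D} {t : ℕ} {o : Out O} (h : o.Lg (π t)) (f : Hi D → Out O) :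
    Rs p (π t) (ans p π (t + 1) f) := val_rs hO h.2.1 _

omit [Inhabited D] in
theorem Rs.one (hp : Lip id p) {m m' : Mv D} {o : Out O} (h : Rs p m o) (h' : o.Lg m') :
    m.2 < m'.2 ∧ Agr p m'.1 m.1 m.2 := by
  have h2 := h.2
  have h3 := o.ok.1
  have h4 := h'.2.2
  exact ⟨by omega, fun k hk => cyl_trans (cylinder_anti _ (by omega)
    (hp (h'.1 k (by omega)))) (h.1 k hk)⟩

theorem Play.chain (hO : Opn O) (hp : Lip id p) {f : ℕ → Hi D → Out O} {π : Hi D}
    (h : Play p f π) {t t' : ℕ} (ht : t ≤ t') :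
    (π t).2 ≤ (π t').2 ∧ Agr p (π t').1 (π t).1 (π t).2 := by
  induction ht with
  | refl => exact ⟨le_rfl, fun m _ => self_mem_cylinder _ _⟩
  | @step k _ ih =>
    have h1 := (ans_rs hO (h k) _).one hp (h (k + 1))
    exact ⟨ih.1.trans h1.1.le, h1.2.trans ih.2 ih.1⟩

theorem Fn.back (hO : Opn O) (hp : Lip id p) {f : ℕ → Hi D → Out O} {π : Hi D} {r h : ℕ}
    (hr : r ≤ h) (H : Fn p f π h) {m : Mv D} (h' : (ans p π h (f h)).Lg m) :
    (ans p π r (f r)).l ≤ m.2 ∧ ∀ k < (ans p π r (f r)).b,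
      p (m.1 k) ∈ cylinder (p ((ans p π r (f r)).x k)) (ans p π r (f r)).l := by
  induction hr generalizing m with
  | refl => exact ⟨h'.2.2, fun m hm => hp (h'.1 m hm)⟩
  | @step k _ ih =>
    have h0 := H k (Nat.lt_succ_self k)
    have h1 := (ans_rs hO h0 _).one hp h'
    have h2 := ih (fun t ht => H t (ht.trans (Nat.lt_succ_self k))) h0
    have h3 := (ans p π r (f r)).ok.1
    exact ⟨h2.1.trans h1.1.le, fun m hm => cyl_trans (cylinder_anti _ h2.1 (h1.2 m (by omega)))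
      (h2.2 m hm)⟩

theorem Fn.le (hO : Opn O) {f : ℕ → Hi D → Out O} {π : Hi D} {h : ℕ} (H : Fn p f π h) :
    (f 0 default).l + h ≤ (ans p π h (f h)).l := by
  induction h with
  | zero => exact le_rfl
  | succ h ih =>
    have h0 := H h (Nat.lt_succ_self h)
    have h1 := (ans_rs (p := p) hO h0 (f (h + 1))).2
    have h2 := ih fun t ht => H t (by omega)
    have h3 := h0.2.2
    have h4 := (ans p π (h + 1) (f (h + 1))).ok.1
    omega

/-- Families of strategies: time, input, parameter, history. -/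
abbrev Str (O : ℕ → Set (Y D)) (I : Type) := ℕ → Cs → I → Hi D → Out O

/-- What a transformation of strategies has to do. -/
structure Spec (L : Lay) (c : ℕ) (C : Kl) (p p' : Y D → ℕ → α) {I : Type}
    (Φ : Str O I → Str O I) : Prop where
  cau : ∀ τ τ' t, (∀ j ≤ t, τ j = τ' j) → Φ τ t = Φ τ' t
  ini : ∀ τ y i, Φ τ 0 y i default = τ 0 y i default
  cls : ∀ τ, C c _ (τ 0) → (∀ j, Ms L c C (c + j) _ (τ j)) → ∀ t, C (c + t) _ (Φ τ t)
  ply : ∀ τ, (∀ j, Ms L c C (c + j) _ (τ j)) → ∀ y i π', c ≤ (τ 0 y i default).l →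
    Play p' (fun t => Φ τ t y i) π' → ∃ π, Play p (fun t => τ t y i) π ∧ Tr p' π π'

theorem spec_zero (hO : Opn O) {c : ℕ} {C : Kl} (hC : Good C) (hp : Lip p p') (I : Type) :
    ∃ Φ : Str O I → Str O I, Spec .zero c C p p' Φ := by
  refine ⟨fun τ t y i π => ans p π t (τ t y i), fun τ τ' t h => by rw [h t le_rfl],
    fun _ _ _ => rfl, fun τ _ h t => hC.map (fun a i π => ans p π t (a i)) (h t),
    fun τ _ y i π _ h => ⟨π, fun t => ?_, fun t => ⟨le_rfl, fun _ _ => self_mem_cylinder _ _⟩⟩⟩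
  have h1 := h t
  rcases t with _ | t
  · exact h1
  · have e := ans_congr (p := p) (π := cut (t + 1) π) (π' := π) (t := t + 1)
      (fun i hi => if_pos hi) (τ (t + 1) y i)
    simp only [ans.eq_2 p'] at h1
    rwa [e, val_of ((ans_rs hO (h t) _).lip hp)] at h1

/-- A first answer followed by a list of guesses. -/
def ex (o : Out O) (a : ℕ → Hi D → Out O) : ℕ → Hi D → Out O
  | 0 => fun _ => o
  | j + 1 => a j

/-- A finite play with the guesses that it follows. -/
abbrev Sk (O : ℕ → Set (Y D)) := ℕ × Hi D × (ℕ → Hi D → Out O)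

/-- On the boards that are not protected the move lies in the sets `N`. -/
def Out.Cn (N : ℕ → Set (Y D)) (o : Out O) (m : Mv D) : Prop := ∀ j, o.b ≤ j → m.1 j ∈ N j

/-- The finite play is cut at the first changed guess and extended by one move. -/
def Rel (N : ℕ → Set (Y D)) (p p' : Y D → ℕ → α) (o : Out O) (k : Sk O) (g : ℕ → Hi D → Out O)
    (m : Mv D) (k' : Sk O) : Prop :=
  ∃ r ≤ k.1, k'.1 = r + 1 ∧ (r < k.1 → g r ≠ k.2.2 r) ∧ (∀ j < r, k'.2.1 j = k.2.1 j) ∧
    k'.2.2 = g ∧ (k'.2.1 r).2 = m.2 ∧ Agr p' (k'.2.1 r).1 m.1 m.2 ∧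
    ∀ t < r + 1, (ans p k'.2.1 t (ex o g t)).Lg (k'.2.1 t) ∧
      (ans p k'.2.1 t (ex o g t)).Cn N (k'.2.1 t)

variable {N : ℕ → Set (Y D)}

theorem rel_tot (hO : Opn O) (hp : Lip id p) {c : ℕ} (hA : ∀ x z l M, c ≤ l →
      p x ∈ cylinder (p z) l → ∃ x' ∈ cylinder z l, p' x' ∈ cylinder (p' x) M)
    (hN : ∀ j, ∀ y ∈ O j, ∀ M, ∃ y' ∈ N j ∩ O j, p' y' ∈ cylinder (p' y) M)
    {o : Out O} (ho : c ≤ o.l) {k : Sk O} (hk' : ∀ t < k.1,
      (ans p k.2.1 t (ex o k.2.2 t)).Lg (k.2.1 t) ∧ (ans p k.2.1 t (ex o k.2.2 t)).Cn N (k.2.1 t))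
    (g : ℕ → Hi D → Out O) {m : Mv D} (h : (ans p k.2.1 k.1 (ex o k.2.2 k.1)).Lg m) :
    ∃ k', Rel N p p' o k g m k' := by
  classical
  obtain ⟨n, H, a⟩ := k
  dsimp only at hk' h
  have hk : Fn p (ex o a) H n := fun t ht => (hk' t ht).1
  have hx : ∃ j, n ≤ j ∨ g j ≠ a j := ⟨n, Or.inl le_rfl⟩
  have h1 := Nat.find_spec hx
  have h2 := fun j => Nat.find_min hx (m := j)
  have h3 : Nat.find hx ≤ n := Nat.find_min' hx (Or.inl le_rfl)
  generalize Nat.find hx = r at h1 h2 h3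
  obtain ⟨b1, b2⟩ := hk.back hO hp h3 h
  have b3 : c ≤ (ans p H r (ex o a r)).l :=
    (ho.trans (Nat.le_add_right _ r)).trans (Fn.le hO fun t ht => hk t (by omega))
  have h4 : ∀ j, ∃ y, (j < (ans p H r (ex o a r)).b → y ∈ cylinder ((ans p H r (ex o a r)).x j)
      (ans p H r (ex o a r)).l) ∧ y ∈ O j ∧ p' y ∈ cylinder (p' (m.1 j)) m.2 ∧
      ((ans p H r (ex o a r)).b ≤ j → y ∈ N j) := fun j => by
    by_cases hm : j < (ans p H r (ex o a r)).b
    · obtain ⟨y, y1, y2⟩ := hA _ _ _ m.2 b3 (b2 j hm)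
      exact ⟨y, fun _ => y1, (ans p H r (ex o a r)).ok.2.2 j hm y1, y2, fun h => absurd hm h.not_gt⟩
    · obtain ⟨y, y1, y2⟩ := hN j _ (h.2.1 j) m.2
      exact ⟨y, fun h' => absurd h' hm, y1.2, y2, fun _ => y1.1⟩
  choose W c1 c2 c3 c4 using h4
  refine ⟨⟨r + 1, Function.update H r (W, m.2), g⟩, r, h3, rfl,
    fun hr => h1.resolve_left hr.not_ge, fun j hj => Function.update_of_ne hj.ne _ _, rfl, by simp,
    by dsimp only; rw [Function.update_self]; exact fun j _ => c3 j, fun t ht => ?_⟩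
  have e : ex o g t = ex o a t := by
    rcases t with _ | t
    exacts [rfl, not_not.1 (not_or.1 (h2 t (by omega))).2]
  dsimp only
  rw [e, ans_congr (π' := H) fun i hi => Function.update_of_ne (by omega) _ _]
  rcases (Nat.lt_succ_iff.1 ht).eq_or_lt with rfl | ht
  · rw [Function.update_self]; exact ⟨⟨c1, c2, b1⟩, c4⟩
  · rw [Function.update_of_ne ht.ne]; exact hk' t (by omega)

/-- The finite plays along a sequence of guesses and moves. -/
noncomputable def go (N : ℕ → Set (Y D)) (p p' : Y D → ℕ → α) (o : Out O)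
    (γ : ℕ → ℕ → Hi D → Out O) (π : Hi D) : ℕ → Sk O
  | 0 => (0, default, fun _ _ => o)
  | t + 1 => @Classical.epsilon _ ⟨(0, default, fun _ _ => o)⟩
      (Rel N p p' o (go N p p' o γ π t) (γ t) (π t))

theorem go_congr {o : Out O} {γ γ' : ℕ → ℕ → Hi D → Out O} {π π' : Hi D} {t : ℕ}
    (h : ∀ s < t, γ s = γ' s) (h' : ∀ s < t, π s = π' s) :
    go N p p' o γ π t = go N p p' o γ' π' t := by
  induction t with
  | zero => rfl
  | succ t ih =>
    rw [go, go, ih (fun s hs => h s (by omega)) fun s hs => h' s (by omega), h t (by omega),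
      h' t (by omega)]

/-- The last answer of a finite play. -/
noncomputable def Sk.out (p : Y D → ℕ → α) (o : Out O) (k : Sk O) : Out O :=
  ans p k.2.1 k.1 (ex o k.2.2 k.1)

theorem go_play (hO : Opn O) (hp : Lip id p) (hpp : Lip p p') {c : ℕ} (hA : ∀ x z l M, c ≤ l →
      p x ∈ cylinder (p z) l → ∃ x' ∈ cylinder z l, p' x' ∈ cylinder (p' x) M)
    (hN : ∀ j, ∀ y ∈ O j, ∀ M, ∃ y' ∈ N j ∩ O j, p' y' ∈ cylinder (p' y) M)
    {o : Out O} (ho : c ≤ o.l) {γ : ℕ → ℕ → Hi D → Out O} {u : ℕ → Hi D → Out O}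
    (hγ : ∀ j, ∀ᶠ t in atTop, γ t j = u j) {π : Hi D}
    (h : Play p' (fun t π => (go N p p' o γ π t).out p o) π) :
    ∃ π', (∀ t, (ans p π' t (ex o u t)).Lg (π' t) ∧ (ans p π' t (ex o u t)).Cn N (π' t)) ∧
      Tr p' π' π := by
  have ch := fun t t' ht => h.chain hO (fun _ _ _ h => hpp (hp h)) (t := t) (t' := t') ht
  set k := go N p p' o γ π with hk
  have h0 : ∀ t, (∀ s < (k t).1, (ans p (k t).2.1 s (ex o (k t).2.2 s)).Lg ((k t).2.1 s) ∧
      (ans p (k t).2.1 s (ex o (k t).2.2 s)).Cn N ((k t).2.1 s)) ∧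
      ans p' π t (fun π => (go N p p' o γ π t).out p o) = (k t).out p o := by
    intro t
    induction t with
    | zero => exact ⟨fun j hj => absurd hj (Nat.not_lt_zero j), rfl⟩
    | succ t ih =>
      have h1 := h t
      simp only [ih.2] at h1
      obtain ⟨r, -, r2, -, -, r5, r6, r7, r8⟩ : Rel N p p' o (k t) (γ t) (π t) (k (t + 1)) :=
        Classical.epsilon_spec (rel_tot hO hp hA hN ho ih.1 (γ t) h1)
      refine ⟨by rwa [r2, r5], ?_⟩
      rw [ans, go_congr (π := cut (t + 1) π) (π' := π) (fun _ _ => rfl) fun s hs => if_pos hs,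
        ← hk, val_of]
      have h2 := (ans_rs (p := p) hO (r8 r (Nat.lt_succ_self r)).1 (ex o (γ t) (r + 1))).lip hpp
      rw [Sk.out, r2, r5]
      exact ⟨Agr.trans (r6 ▸ h2.1) r7 le_rfl, r6 ▸ h2.2⟩
  choose r r1 r2 r3 r4 r5 r6 r7 r8 using fun t => show Rel N p p' o (k t) (γ t) (π t) (k (t + 1)) from
    Classical.epsilon_spec (rel_tot hO hp hA hN ho (h0 t).1 (γ t) (by
      have h1 := h t
      simp only [(h0 t).2] at h1
      exact h1))
  have hγ' : ∀ n, ∀ᶠ t in atTop, ∀ j ≤ n, γ t j = u j := fun n => by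
    simpa [Nat.lt_succ_iff] using (Finset.eventually_all (Finset.range (n + 1))).2 fun j _ => hγ j
  have big : ∀ t n, n ≤ (k t).1 ∧ (∀ j < n, (k t).2.2 j = u j) → (∀ j ≤ n, γ t j = u j) →
      n ≤ r t := fun t n h1 h2 => not_lt.1 fun h3 =>
    r3 t (h3.trans_le h1.1) ((h2 _ h3.le).trans (h1.2 _ h3).symm)
  have good : ∀ n, ∀ᶠ t in atTop, n ≤ (k t).1 ∧ ∀ j < n, (k t).2.2 j = u j := by
    intro n
    induction n with
    | zero => exact Eventually.of_forall fun t => ⟨Nat.zero_le _, fun j hj => absurd hj (by omega)⟩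
    | succ n ih =>
      obtain ⟨T, hT⟩ := eventually_atTop.1 (ih.and (hγ' n))
      refine eventually_atTop.2 ⟨T + 1, fun t ht => ?_⟩
      obtain ⟨t, rfl⟩ : ∃ t', t = t' + 1 := ⟨t - 1, by omega⟩
      have h1 := hT t (by omega)
      have h2 := big t n h1.1 h1.2
      exact ⟨by rw [r2]; omega, fun j hj => by rw [r5]; exact h1.2 j (by omega)⟩
  have stab : ∀ j, ∃ e, ∀ᶠ t in atTop, (k t).2.1 j = e := fun j => by
    obtain ⟨T, hT⟩ := eventually_atTop.1 ((good (j + 1)).and (hγ' (j + 1)))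
    refine ⟨(k T).2.1 j, eventually_atTop.2 ⟨T, fun t ht => ?_⟩⟩
    induction ht with
    | refl => rfl
    | @step t ht ih => exact (r4 t j (big t _ (hT t ht).1 (hT t ht).2)).trans ih
  choose e he using stab
  refine ⟨e, fun j => ?_, fun t0 => ?_⟩
  · obtain ⟨t, ⟨h1, h2⟩, h3⟩ := ((good (j + 1)).and
      ((Finset.eventually_all (Finset.range (j + 1))).2 fun i _ => he i)).exists
    simp only [Finset.mem_range] at h3
    have h4 := (h0 t).1 j h1
    have h5 : ex o (k t).2.2 j = ex o u j := by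
      rcases j with _ | j
      exacts [rfl, h2 j (by omega)]
    rwa [h5, h3 j (by omega), ans_congr (π' := e) fun i hi => h3 i (by omega)] at h4
  have inv : ∀ t, (k t).1 ≤ t ∧ (t0 < (k t).1 →
      (π t0).2 ≤ ((k t).2.1 t0).2 ∧ Agr p' ((k t).2.1 t0).1 (π t0).1 (π t0).2) := by
    intro t
    induction t with
    | zero => exact ⟨le_rfl, fun h => absurd h (Nat.not_lt_zero _)⟩
    | succ t ih =>
      have h1 := r1 t
      have h2 := r2 t
      refine ⟨by omega, fun h3 => ?_⟩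
      rcases (show t0 ≤ r t by omega).eq_or_lt with h4 | h4
      · have h5 := ch t0 t (by omega)
        have h6 := r7 t
        have h7 := r6 t
        rw [← h4] at h6 h7
        exact ⟨h7 ▸ h5.1, h6.trans h5.2 h5.1⟩
      · rw [r4 t t0 h4]
        exact ih.2 (by omega)
  obtain ⟨t, h1, h2⟩ := ((good (t0 + 1)).and (he t0)).exists
  exact h2 ▸ (inv t).2 h1.1

theorem spec_one [Inhabited (Out O)] (hO : Opn O) {c : ℕ} {C : Kl} (hC : Good C) (hp : Lip id p)
    (hpp : Lip p p') (hA : ∀ x z l M, c ≤ l →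
      p x ∈ cylinder (p z) l → ∃ x' ∈ cylinder z l, p' x' ∈ cylinder (p' x) M)
    (hN : ∀ j, ∀ y ∈ O j, ∀ M, ∃ y' ∈ N j ∩ O j, p' y' ∈ cylinder (p' y) M) (I : Type) :
    ∃ Φ : Str O I → Str O I, Spec .one c C p p' Φ ∧
      ∀ τ, (∀ j, Ms .one c C (c + j) _ (τ j)) → ∀ y i π', c ≤ (τ 0 y i default).l →
        Play p' (fun t => Φ τ t y i) π' → ∃ π, (∀ t, (ans p π t (τ t y i)).Lg (π t) ∧
          (ans p π t (τ t y i)).Cn N (π t)) ∧ Tr p' π π' := by
  have h0 : ∀ φ : Cs → I → Hi D → Out O, ∃ ψ : ℕ → Cs → I → Hi D → Out O, Ms .one c C 0 _ φ →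
      (∀ t, C t _ (ψ t)) ∧ ∀ y, ∀ᶠ t in atTop, ψ t y = φ y := fun φ => by
    by_cases h : Ms .one c C 0 _ φ
    exacts [h.imp fun _ h _ => h, ⟨fun _ => φ, fun h' => absurd h' h⟩]
  choose app happ using h0
  let γ : Str O I → ℕ → Cs → ℕ → I → Hi D → Out O := fun τ s y j =>
    if j < s + 1 then app (τ (j + 1)) (c + s) y else default
  let F : ℕ → (I → Hi D → Out O) → (ℕ → ℕ → I → Hi D → Out O) → I → Hi D → Out O :=
    fun t a g i π => (go N p p' (a i default) (fun s j => g s j i) π t).out p (a i default)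
  have hF : ∀ t a g g', (∀ s < t, g s = g' s) → F t a g = F t a g' := fun t a g g' h =>
    funext fun i => funext fun π => congrArg (Sk.out p (a i default))
      (go_congr (fun s hs => by simp only [h s hs]) fun _ _ => rfl)
  have key : ∀ τ : Str O I, (∀ j, Ms .one c C (c + j) _ (τ j)) → ∀ y i π',
      c ≤ (τ 0 y i default).l → Play p' (fun t => F t (τ 0 y) (γ τ · y) i) π' →
      ∃ π, (∀ t, (ans p π t (τ t y i)).Lg (π t) ∧ (ans p π t (τ t y i)).Cn N (π t)) ∧
        Tr p' π π' := by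
    intro τ h1 y i π h2 h3
    obtain ⟨π', a, b⟩ := go_play (u := fun j => τ (j + 1) y i) hO hp hpp hA hN h2 (fun j => by
      obtain ⟨T, hT⟩ := eventually_atTop.1 ((happ _ (h1 (j + 1))).2 y)
      filter_upwards [eventually_ge_atTop T, eventually_ge_atTop j] with t a b
      simp only [γ, if_pos (Nat.lt_succ_of_le b), hT (c + t) (by omega)]) h3
    refine ⟨π', fun t => ?_, b⟩
    rcases t with _ | t
    exacts [a 0, a (t + 1)]
  refine ⟨fun τ t y => F t (τ 0 y) (γ τ · y), ⟨fun τ τ' t h => funext fun y => ?_,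
    fun _ _ _ => rfl, fun τ h1 h2 t => ?_, fun τ h1 y i π h2 h3 =>
      (key τ h1 y i π h2 h3).imp fun _ h => ⟨fun t => (h.1 t).1, h.2⟩⟩, key⟩
  · rw [h 0 (Nat.zero_le t)]
    refine hF _ _ _ _ fun s hs => funext fun j => ?_
    simp only [γ]
    split_ifs with hj
    exacts [by rw [h _ (by omega)], rfl]
  · convert hC.map₂ (F t) (hC.mono (Nat.le_add_right c t) h1) (hC.fin (φ := γ τ) default id t
      fun s hs => hC.fin default id (s + 1) fun j _ =>
        hC.mono (show c + s ≤ c + t by omega) ((happ _ (h2 (j + 1))).1 _)) using 2 with y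
    exact hF _ _ _ _ fun s hs => (if_pos hs).symm

end Pool.Agent.Lib.MP_5684f0_lc.T
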