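import Pool.Agent.Lib.MP_5684f0_lc.T.Play

/-! The removal of infinitely many layers of limits. -/

namespace Pool.Agent.Lib.MP_5684f0_lc.T

open Filter Topology Set PiNat G

variable {D α : Type} {O : ℕ → Set (Y D)} {p p' : Y D → ℕ → α}

/-- Levels between `p` and `p'` arranged along a code, with amalgamation from length `c` on. -/
def Tower : Lay → ℕ → (Y D → ℕ → α) → (Y D → ℕ → α) → Prop
  | .zero, _, p, p' => Lip p p'
  | .one, c, p, p' => Lip p p' ∧ ∀ x z l M, c ≤ l → p x ∈ cylinder (p z) l →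
      ∃ x' ∈ cylinder z l, p' x' ∈ cylinder (p' x) M
  | .sum L, c, p, p' => ∃ q : ℕ → Y D → ℕ → α, q 0 = p' ∧
      ∀ n, Lip p (q n) ∧ Tower (L n) (c + n + 1) (q (n + 1)) (q n)

theorem Tower.lip : ∀ {L : Lay} {c : ℕ}, Tower L c p p' → Lip p p'
  | .zero, _, h => h
  | .one, _, h => h.1
  | .sum _, _, ⟨_, h, h'⟩ => h ▸ (h' 0).1

variable [Inhabited D] {I : Type}

/-- The strategies of the intermediate levels, with fuel. -/
noncomputable def fu (p : Y D → ℕ → α) (Φ : ℕ → Str O (I × Hi D) → Str O (I × Hi D))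
    (τ : Str O I) : ℕ → ℕ → Str O (I × Hi D)
  | f + 1, n, t + 1 => fun y i π => Φ n (fu p Φ τ f (n + 1)) t y
      (i.1, Function.update i.2 n (π 0)) fun j => π (j + 1)
  | _, n, _ => fun y i _ => ans p i.2 n (τ n y i.1)

theorem fu_congr {Φ : ℕ → Str O (I × Hi D) → Str O (I × Hi D)}
    (hΦ : ∀ n τ τ' t, (∀ j ≤ t, τ j = τ' j) → Φ n τ t = Φ n τ' t) {τ τ' : Str O I} (t : ℕ) :
    ∀ n f f', t ≤ f → t ≤ f' → (∀ j ≤ n + t, τ j = τ' j) → fu p Φ τ f n t = fu p Φ τ' f' n t := by
  induction t using Nat.strong_induction_on with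
  | _ t ih =>
  intro n f f' h1 h2 h
  rcases t with _ | t
  · cases f <;> cases f' <;> simp only [fu, h n le_rfl]
  obtain ⟨f, rfl⟩ : ∃ g, f = g + 1 := ⟨f - 1, by omega⟩
  obtain ⟨f', rfl⟩ : ∃ g, f' = g + 1 := ⟨f' - 1, by omega⟩
  rw [fu, fu, hΦ n _ _ t fun j hj => ih j (by omega) (n + 1) f f' (by omega) (by omega)
    fun i hi => h i (by omega)]

theorem spec_sum (hO : Opn O) {L : ℕ → Lay} {c : ℕ} {C : Kl} (hC : Good C)
    {q : ℕ → Y D → ℕ → α} (hq : ∀ n, Lip p (q n)) (hq' : ∀ n, Lip (q (n + 1)) (q n))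
    {Φ : ℕ → Str O (I × Hi D) → Str O (I × Hi D)}
    (hΦ : ∀ n, Spec (L n) (c + n + 1) (Cp L c C n) (q (n + 1)) (q n) (Φ n)) :
    ∃ Ψ : Str O I → Str O I, Spec (.sum L) c C p (q 0) Ψ := by
  obtain ⟨g1, g2⟩ := hC.cp (L := L) (c := c)
  let σ : Str O I → ℕ → Str O (I × Hi D) := fun τ n t => fu p Φ τ t n t
  have e0 : ∀ τ n, σ τ n 0 = fun y i _ => ans p i.2 n (τ n y i.1) := fun _ _ => rfl
  have e1 : ∀ τ n t, σ τ n (t + 1) = fun y i π => Φ n (σ τ (n + 1)) t y
      (i.1, Function.update i.2 n (π 0)) fun j => π (j + 1) := fun τ n t => by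
    simp only [σ, fu]
    rw [(hΦ n).cau _ _ t fun j hj => fu_congr (fun n => (hΦ n).cau) j (n + 1) t j hj le_rfl
      fun _ _ => rfl]
  have c0 : ∀ τ : Str O I, (∀ j, Ms (.sum L) c C (c + j) _ (τ j)) → ∀ n,
      Cp L c C (n - 1) (c + n) _ (σ τ n 0) := fun τ h n => by
    have h1 : Cp L c C (c + n - (c + 1)) (c + n) _ (τ n) := h n
    rw [show c + n - (c + 1) = n - 1 by omega] at h1
    exact (g1 _).map (fun a (i : I × Hi D) (_ : Hi D) => ans p i.2 n (a i.1)) h1
  have c1 : ∀ τ : Str O I, (∀ j, Ms (.sum L) c C (c + j) _ (τ j)) → ∀ t n,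
      Cp L c C n (c + n + t) _ (σ τ n t) := fun τ h t => by
    induction t using Nat.strong_induction_on with
    | _ t ih =>
    intro n
    rcases t with _ | t
    · exact g2 _ _ (Nat.sub_le n 1) _ _ _ (c0 τ h n)
    have h1 := (hΦ n).cls (fun j => if j ≤ t then σ τ (n + 1) j else σ τ (n + 1) 0)
      (c0 τ h (n + 1)) (fun j => by
        split_ifs with hj
        exacts [ih j (by omega) (n + 1), (g1 (n + 1)).mono (by omega) (ih 0 (by omega) (n + 1))]) t
    rw [(hΦ n).cau _ (σ τ (n + 1)) t fun j hj => if_pos hj] at h1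
    rw [e1, show c + n + (t + 1) = c + n + 1 + t by omega]
    exact (g1 n).map (fun a (i : I × Hi D) (π : Hi D) =>
      a (i.1, Function.update i.2 n (π 0)) fun j => π (j + 1)) h1
  refine ⟨fun τ t y i => σ τ 0 t y (i, default), fun τ τ' t h => by
      simp only [σ, fu_congr (fun n => (hΦ n).cau) t 0 t t le_rfl le_rfl (by simpa using h)],
    fun _ _ _ => rfl, fun τ _ h t => hC.map (fun a i => a (i, default)) (c1 τ h t 0),
    fun τ h y i π0 h1 h2 => ?_⟩
  let T := fun n => {w : Hi D × Hi D // c + n ≤ (ans p w.1 n (τ n y i)).l ∧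
    Play (q n) (fun t => σ τ n t y (i, w.1)) w.2}
  have step : ∀ n (w : T n), ∃ w' : T (n + 1), w'.1.1 = Function.update w.1.1 n (w.1.2 0) ∧
      Tr (q n) w'.1.2 fun j => w.1.2 (j + 1) := by
    rintro n ⟨⟨H, π⟩, a1, a2⟩
    dsimp only at a1 a2 ⊢
    have a3 : (ans p H n (τ n y i)).Lg (π 0) := a2 0
    have a4 : Rs p (π 0) (ans p (Function.update H n (π 0)) (n + 1) (τ (n + 1) y i)) := by
      have := ans_rs (p := p) hO (π := Function.update H n (π 0)) (t := n)
        (by rwa [Function.update_self]) (τ (n + 1) y i)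
      rwa [Function.update_self] at this
    have a5 : c + (n + 1) ≤ (ans p (Function.update H n (π 0)) (n + 1) (τ (n + 1) y i)).l := by
      have := a4.2
      have := a3.2.2
      have := (ans p (Function.update H n (π 0)) (n + 1) (τ (n + 1) y i)).ok.1
      omega
    obtain ⟨π', b1, b2⟩ := (hΦ n).ply (σ τ (n + 1)) (fun j => c1 τ h j (n + 1)) y
      (i, Function.update H n (π 0)) (fun j => π (j + 1)) a5 fun t => by
        have b0 := a2 (t + 1)
        have b1 : cut (t + 1) π 0 = π 0 := if_pos (Nat.succ_pos t)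
        have b2 : (fun j => cut (t + 1) π (j + 1)) = cut t fun j => π (j + 1) :=
          funext fun j => by simp [cut]
        simp only [e1, ans.eq_2 (q n), b1, b2] at b0
        rcases t with _ | t
        · rw [show cut 0 (fun j => π (j + 1)) = default from rfl, (hΦ n).ini, e0,
            val_of (a4.lip (hq n))] at b0
          simpa only [ans, (hΦ n).ini, e0] using b0
        · exact b0
    exact ⟨⟨(_, π'), a5, b1⟩, rfl, b2⟩
  choose F F1 F2 using step
  let w : ∀ n, T n := fun n => Nat.rec (motive := T) ⟨(default, π0), h1, h2⟩ F n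
  have w1 : ∀ n, ∀ j < n, (w n).1.1 j = (w j).1.2 0 := fun n => by
    induction n with
    | zero => exact fun j hj => absurd hj (Nat.not_lt_zero j)
    | succ n ih =>
      intro j hj
      rw [show (w (n + 1)).1.1 = _ from F1 n (w n)]
      rcases (Nat.lt_succ_iff.1 hj).eq_or_lt with rfl | hj
      exacts [Function.update_self .., (Function.update_of_ne hj.ne _ _).trans (ih j hj)]
  have w2 : ∀ n, Lip (q n) (q 0) := fun n => by
    induction n with
    | zero => exact fun _ _ _ h => h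
    | succ n ih => exact fun _ _ _ h => ih (hq' n h)
  have w3 : ∀ n s, (π0 (n + s)).2 ≤ ((w n).1.2 s).2 ∧
      Agr (q 0) ((w n).1.2 s).1 (π0 (n + s)).1 (π0 (n + s)).2 := fun n => by
    induction n with
    | zero =>
      intro s
      rw [Nat.zero_add]
      exact ⟨le_rfl, fun _ _ => self_mem_cylinder _ _⟩
    | succ n ih =>
      intro s
      have h3 := F2 n (w n) s
      have h4 := ih (s + 1)
      rw [show n + 1 + s = n + (s + 1) by omega]
      exact ⟨h4.1.trans h3.1, Agr.trans (fun m hm => w2 n (h3.2 m hm)) h4.2 h4.1⟩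
  refine ⟨fun n => (w n).1.2 0, fun n => ?_, fun n => w3 n 0⟩
  rw [ans_congr (π' := (w n).1.1) fun j hj => (w1 n j hj).symm]
  exact (w n).2.2 0

theorem exists_spec [Inhabited (Out O)] (hO : Opn O) (L : Lay) : ∀ (c : ℕ) {C : Kl}
    {p p' : Y D → ℕ → α} (I : Type), Good C → Lip id p → Tower L c p p' →
    ∃ Φ : Str O I → Str O I, Spec L c C p p' Φ := by
  induction L with
  | zero => exact fun c C p p' I hC _ h => spec_zero hO hC h I
  | one => exact fun c C p p' I hC hp h => (spec_one (N := O) hO hC hp h.1 h.2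
      (fun _ y hy _ => ⟨y, ⟨hy, hy⟩, self_mem_cylinder _ _⟩) I).imp fun _ h => h.1
  | sum L ih =>
    rintro c C p p' I hC hp ⟨q, rfl, h⟩
    choose Φ hΦ using fun n => ih n (c + n + 1) (I × Hi D) ((hC.cp (L := L) (c := c)).1 n)
      (fun _ _ _ h' => (h (n + 1)).1 (hp h')) (h n).2
    exact spec_sum hO hC (fun n => (h n).1) (fun n => (h n).2.lip) hΦ

theorem str_of_rel {S Λ : Type} (s0 : S) (o : S → Out O) {R : S → Λ → Mv D → S → Prop}
    {Q : Out O → Mv D → Prop} (tot : ∀ s a m, Q (o s) m → ∃ s', R s a m s')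
    (resp : ∀ s a m s', R s a m s' → Rs p m (o s')) {C : Kl} (hC : Good C) {u : Cs → ℕ → Λ}
    (hu : ∀ t, C t _ fun y => u y t) : ∃ τ : Str O Unit, (τ 0 = fun _ _ _ => o s0) ∧
      (∀ j, C (0 + j) _ (τ j)) ∧ ∀ y π, (∀ t, Q (ans p π t (τ t y ())) (π t)) →
        ∃ s : ℕ → S, s 0 = s0 ∧ ∀ t, R (s t) (u y t) (π t) (s (t + 1)) := by
  classical
  have h0 : ∀ s a (m : Mv D), ∃ s', Q (o s) m → R s a m s' := fun s a m => by
    by_cases h : Q (o s) m
    exacts [(tot _ a _ h).imp fun _ h _ => h, ⟨s, fun h' => absurd h' h⟩]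
  choose F hF using h0
  let S : (ℕ → Λ) → Hi D → ℕ → S := fun a π t => Nat.rec s0 (fun t s => F s (a t) (π t)) t
  have hS : ∀ a π t, S a π (t + 1) = F (S a π t) (a t) (π t) := fun _ _ _ => rfl
  have hS' : ∀ a a' π π' t, (∀ s < t, a s = a' s ∧ π s = π' s) → S a π t = S a' π' t := by
    intro a a' π π' t h
    induction t with
    | zero => rfl
    | succ t ih => rw [hS, hS, ih fun s hs => h s (by omega), (h t (by omega)).1, (h t (by omega)).2]
  refine ⟨fun t y _ π => o (S (u y) π t), rfl, fun j => ?_, fun y π a => ?_⟩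
  · convert hC.fin (T := 0 + j) (φ := fun t y => u y t) (u default)
      (fun a (_ : Unit) π => o (S a π j)) j fun t ht => hC.mono (by omega) (hu t) using 2 with y
    exact funext fun _ => funext fun π => congrArg o
      (hS' _ _ _ _ _ fun s hs => ⟨(if_pos hs).symm, rfl⟩)
  have a1 : ∀ t, ans p π t (fun π => o (S (u y) π t)) = o (S (u y) π t) := fun t => by
    induction t with
    | zero => rfl
    | succ t ih =>
      have a2 := a t
      simp only [ih] at a2
      simp only [ans]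
      rw [hS' _ (u y) (cut (t + 1) π) π _ fun s hs => ⟨rfl, if_pos hs⟩]
      exact val_of (resp _ _ _ _ (hF _ (u y t) _ a2))
  exact ⟨S (u y) π, rfl, fun t => hF _ _ _ (by
    have a2 := a t
    simp only [a1] at a2
    exact a2)⟩

theorem run0 (hO : Opn O) {L : Lay} (hp : Lip id p) (hT : Tower L 0 p p') {τ : Str O Unit}
    (h0 : C0 0 _ (τ 0)) (h1 : ∀ j, Ms L 0 C0 (0 + j) _ (τ j)) {G : Cs → (ℕ → Y D) → Prop}
    (hw : ∀ y π, Play p (fun t => τ t y ()) π → ∃ z, G y z ∧ ∀ t, Agr p z (π t).1 (π t).2) :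
    ∃ w : Cs → ℕ → Y D, (∀ m n, LC univ fun y => p' (w y m) n) ∧ ∀ y, G y (w y) := by
  let _ : Inhabited (Out O) := ⟨τ 0 default () default⟩
  obtain ⟨Φ, hΦ⟩ := exists_spec hO L 0 Unit good_C0 hp hT
  have h2 := hΦ.cls τ h0 h1
  let P : Cs → ℕ → Hi D := fun y t => Nat.rec default (fun t π => Function.update π t
    ((ans p' π t (Φ τ t y ())).x, (ans p' π t (Φ τ t y ())).l)) t
  have hP : ∀ y t, P y (t + 1) = Function.update (P y t) t
    ((ans p' (P y t) t (Φ τ t y ())).x, (ans p' (P y t) t (Φ τ t y ())).l) := fun _ _ => rfl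
  have hlc : ∀ t, LC univ fun y => P y t := by
    intro t
    induction t with
    | zero => exact fun y _ => Eventually.of_forall fun _ => rfl
    | succ t ih =>
      intro y hy
      filter_upwards [ih y hy, h2 t y hy] with y' h1 h2
      rw [hP, hP, h1, h2]
  have h3 : ∀ y t, ∀ j < t, P y t j = P y (j + 1) j := fun y t => by
    induction t with
    | zero => exact fun j hj => absurd hj (Nat.not_lt_zero j)
    | succ t ih =>
      intro j hj
      rcases (Nat.lt_succ_iff.1 hj).eq_or_lt with rfl | hj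
      exacts [rfl, (Function.update_of_ne hj.ne _ _).trans (ih j hj)]
  have h4 : ∀ y, Play p' (fun t => Φ τ t y ()) fun t => P y (t + 1) t := fun y t => by
    rw [ans_congr (π' := P y t) fun j hj => (h3 y t j hj).symm]
    simp only [hP, Function.update_self]
    exact ⟨fun _ _ => self_mem_cylinder _ _, (ans p' (P y t) t (Φ τ t y ())).ok.2.1, le_rfl⟩
  have h5 : ∀ y, ∃ z, G y z ∧ ∀ t, Agr p' z (P y (t + 1) t).1 (P y (t + 1) t).2 := fun y => by
    obtain ⟨π, a, b⟩ := hΦ.ply τ h1 y () _ (Nat.zero_le _) (h4 y)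
    obtain ⟨z, z1, z2⟩ := hw y π a
    exact ⟨z, z1, fun t => Agr.trans (fun m hm => hT.lip (z2 t m hm)) (b t).2 (b t).1⟩
  choose w w1 w2 using h5
  have hl : ∀ y t, t ≤ (P y (t + 1) t).2 := fun y t =>
    ((Nat.le_add_left t _).trans (Fn.le hO fun s _ => h4 y s)).trans (h4 y t).2.2
  refine ⟨w, fun m n y hy => ?_, w1⟩
  have e := fun y => w2 y (max m n + 1) m (by have := hl y (max m n + 1); omega) n
    (by have := hl y (max m n + 1); omega)
  filter_upwards [hlc (max m n + 1 + 1) y hy] with y' h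
  exact (e y').trans (h ▸ (e y).symm)

theorem run (hO : Opn O) {L : Lay} (hp : Lip id p) (hT : Tower L 0 p p') {Λ : Type}
    (σ : Pre p O Λ) {u : Cs → ℕ → Λ} (hu : ∀ t, Ms L 0 C0 t _ fun y => u y t)
    {G : Cs → (ℕ → Y D) → Prop} (hw : ∀ y, σ.Win (u y) (G y)) :
    ∃ w : Cs → ℕ → Y D, (∀ m n, LC univ fun y => p' (w y m) n) ∧ ∀ y, G y (w y) := by
  obtain ⟨τ, h0, h1, h2⟩ := str_of_rel (p := p) σ.s0 (fun s => (⟨σ.x s, σ.b s, σ.l s, σ.ok s⟩ : Out O))
    (R := fun s a m => σ.R s a m.1 m.2) (Q := Out.Lg) (fun s a m => σ.tot s a m.1 m.2)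
    (fun s a m s' h => (σ.resp _ _ _ _ _ h).2) (Good.ms L 0 good_C0).1 hu
  refine run0 hO hp hT (h0 ▸ good_C0.const 0 _) h1 fun y π h => ?_
  obtain ⟨s, s0, hs⟩ := h2 y π h
  exact hw y s _ _ s0 hs

end Pool.Agent.Lib.MP_5684f0_lc.T
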